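import Pool.Agent.Y616.MH.Seq

/-!
# The family of disjoint solutions
-/

set_option autoImplicit false

open scoped ContDiff ENNReal Manifold
open Set MeasureTheory Filter Topology Pool.Agent.H729R2 Pool.Agent.H729R2.MHD

namespace Pool.Agent.Y616.MH

noncomputable section

/-- one small solution -/
lemma ball_seq {T : ℝ} {U : Set X} (hU : IsOpen U) (hne : U.Nonempty) (hUT : U ⊆ slab T)
    {η b : ℝ} (hη : 0 < η) (hb : 0 < b) : ∃ (K : Set X) (S : ℕ → St) (dk : ℝ),
      IsCompact K ∧ K ⊆ U ∧ SeqRate T K S b η η dk ∧ 0 < dk ∧ dk ≤ η ∧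
      ∃ z ∈ K, ∃ i, dk < |(S 0).u i z| := by
  obtain ⟨K, S₀, hK, hKU, hg, hr, z, i, hz⟩ := exists_init hU hne
  obtain ⟨B, hB, hBa⟩ := sc_small hK hg.hu hg.uK
  set es : ℝ := min (1 / 1000000) (min (b / 80) (η / 320)) with hes
  have hes0 : 0 < es := lt_min (by norm_num) (lt_min (by positivity) (by positivity))
  have hes1 : es ≤ 1 / 1000000 := min_le_left _ _
  have hes2 : es ≤ b / 80 := (min_le_right _ _).trans (min_le_left _ _)
  have hes3 : es ≤ η / 320 := (min_le_right _ _).trans (min_le_right _ _)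
  set M : ℝ := 150000 / es with hM
  have hM0 : 0 < M := by positivity
  have hz0 : 0 < |S₀.u i z| := abs_pos.2 hz
  set a : ℝ := min 1 (η / (8 * (B + 1) * (M + 1))) with ha
  have ha0 : 0 < a := lt_min one_pos (by positivity)
  have ha1 : a ≤ 1 := min_le_left _ _
  have ha2 : a * ((B + 1) * (M + 1)) ≤ η / 8 := by
    have h1 : a ≤ η / (8 * (B + 1) * (M + 1)) := min_le_right _ _
    rw [le_div_iff₀ (by positivity)] at h1
    linarith
  have ha3 : a * B ≤ η / 8 := by
    refine le_trans ?_ ha2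
    refine mul_le_mul_of_nonneg_left ?_ ha0.le
    nlinarith
  have ha4 : M * (a * B) ≤ η / 8 := by
    refine le_trans ?_ ha2
    have : M * (a * B) = a * (M * B) := by ring
    rw [this]
    refine mul_le_mul_of_nonneg_left ?_ ha0.le
    nlinarith
  set d : ℝ := min (a * |S₀.u i z| / 2) (min 1 (η / (800 * (M + 1)))) with hd
  have hd0 : 0 < d := lt_min (by positivity) (lt_min one_pos (by positivity))
  have hd1 : d ≤ 1 := (min_le_right _ _).trans (min_le_left _ _)
  have hd2 : d ≤ a * |S₀.u i z| / 2 := min_le_left _ _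
  have hd3 : d * (100 * (M + 1)) ≤ η / 8 := by
    have h1 : d ≤ η / (800 * (M + 1)) := (min_le_right _ _).trans (min_le_right _ _)
    rw [le_div_iff₀ (by positivity)] at h1
    linarith
  have hd4 : d ≤ η / 8 := by nlinarith
  obtain ⟨b1, b2, b3⟩ := hBa a ha0 ha1
  obtain ⟨S, h0, hS⟩ := seq_of (T := T) hK (hKU.trans hUT) (sc_good hg.hu hg.uK hg.div a)
    (fun _ => rfl) (fun i z => sc_ff _ a i z) b1 b2 hes0 hes1 (b := b) (by linarith) hd0 hd1 rfl
  set D₀ : ℝ := 100 * d + ee (sc S₀.u a) + mm (sc S₀.u a) with hD₀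
  have hDM : M * D₀ ≤ η / 4 := by
    have h1 : D₀ ≤ 100 * d + a * B := by linarith
    have h2 : M * D₀ ≤ M * (100 * d + a * B) := mul_le_mul_of_nonneg_left h1 hM0.le
    nlinarith
  have e1 : 150000 * D₀ / es = M * D₀ := by rw [hM]; ring
  have e2 : 3000 * D₀ / es = M * D₀ / 50 := by rw [hM]; ring
  have hD0 : 0 ≤ D₀ := by
    have := ee_nonneg (sc S₀.u a)
    have := mm_nonneg (sc S₀.u a)
    positivity
  have hMD0 : 0 ≤ M * D₀ := by positivity
  rw [e1, e2] at hS
  have hc : a * B + d + 80 * es + M * D₀ ≤ η := by linarith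
  have hC : M * D₀ / 50 ≤ η := by linarith
  have hbt := bet_pos
  have hCb : ∀ n, M * D₀ / 50 * bet n ≤ η * bet n := fun n =>
    mul_le_mul_of_nonneg_right hC (hbt n).le
  refine ⟨K, S, d, hK, hKU, ⟨hS.good, hS.u, hS.ux, fun n i z => (hS.uc n i z).trans hc,
    fun n i v z hv => (hS.uxc n i v z hv).trans hc, hS.ud, hS.uxd, hS.r,
    fun n x => (hS.rc n x).trans hc, hS.R2, fun n i => (hS.f n i).trans (hCb n),
    fun n i => (hS.fc n i).trans hc, fun n i => (hS.e n i).trans (hCb n), hS.r1⟩, hd0,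
    by linarith, z, ?_, i, ?_⟩
  · exact hg.uK i (subset_tsupport _ hz)
  · rw [h0]
    change d < |a * S₀.u i z|
    rw [abs_mul, abs_of_pos ha0]
    have : 0 < a * |S₀.u i z| := by positivity
    linarith

/-- the solution close to a given field -/
lemma main_seq {T : ℝ} {K : Set X} (hK : IsCompact K) (hKT : K ⊆ slab T) {v : Fin 3 → X → ℝ}
    (hv : ∀ i, ContDiff ℝ ∞ (v i)) (vK : ∀ i, tsupport (v i) ⊆ K)
    (div : ∀ z, ∑ i, D (ev i) (v i) z = 0) {η b : ℝ} (hη : 0 < η) (hb : 0 < b) :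
    ∃ (S : ℕ → St) (C c : ℝ), SeqRate T K S b C c η ∧ (S 0).u = v ∧ 0 ≤ C ∧ 0 ≤ c := by
  obtain ⟨B, hB, hBa⟩ := sc_small hK hv vK
  obtain ⟨b1, b2, b3⟩ := hBa 1 one_pos le_rfl
  set es : ℝ := min (1 / 1000000) (b / 80) with hes
  have hes0 : 0 < es := lt_min (by norm_num) (by positivity)
  have hes1 : es ≤ 1 / 1000000 := min_le_left _ _
  have hes2 : es ≤ b / 80 := min_le_right _ _
  set d : ℝ := min 1 η with hd
  have hd0 : 0 < d := lt_min one_pos hη
  obtain ⟨S, h0, hS⟩ := seq_of (T := T) hK hKT (sc_good hv vK div 1)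
    (fun _ => rfl) (fun i z => sc_ff _ 1 i z) b1 b2 hes0 hes1 (b := b) (by linarith) hd0
    (min_le_left _ _) rfl
  set D₀ : ℝ := 100 * d + ee (sc v 1) + mm (sc v 1) with hD₀
  have hD0 : 0 ≤ D₀ := by
    have := ee_nonneg (sc v 1)
    have := mm_nonneg (sc v 1)
    positivity
  refine ⟨S, _, _, ⟨hS.good, hS.u, hS.ux, hS.uc, hS.uxc, fun n i z => (hS.ud n i z).trans
    (min_le_right _ _), fun n i v z hv => (hS.uxd n i v z hv).trans (min_le_right _ _), hS.r,
    hS.rc, hS.R2, hS.f, hS.fc, hS.e, hS.r1⟩, ?_, by positivity, by positivity⟩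
  rw [h0]
  funext i z
  exact one_mul _

/-- a ball outside of the support -/
lemma exists_ball {Ω : Set E3} (hΩ : IsOpen Ω) (hbd : Bornology.IsBounded Ω) (hne : Ω.Nonempty)
    {P : Set E3} (hP : IsCompact P) (hPΩ : P ⊆ Ω) :
    ∃ (x₀ : E3) (R : ℝ), 0 < R ∧ Metric.closedBall x₀ R ⊆ Ω \ P := by
  have h1 : (Ω \ P).Nonempty := by
    by_contra hcon
    rw [Set.not_nonempty_iff_eq_empty, Set.sdiff_eq_empty] at hcon
    have he : Ω = P := Set.Subset.antisymm hcon hPΩ
    have hcl : IsClopen Ω := ⟨by rw [he]; exact hP.isClosed, hΩ⟩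
    have hu := hcl.eq_univ hne
    rw [he] at hu
    rw [hu] at hP
    exact noncompact_univ E3 hP
  obtain ⟨x₀, hx₀⟩ := h1
  have ho : IsOpen (Ω \ P) := hΩ.sdiff hP.isClosed
  obtain ⟨R, hR, hRs⟩ := Metric.isOpen_iff.1 ho x₀ hx₀
  exact ⟨x₀, R / 2, by positivity, (Metric.closedBall_subset_ball (by linarith)).trans hRs⟩

/-- the centers -/
def ctr (x₀ : E3) (R : ℝ) (k : ℕ) : E3 := x₀ + (R / 2 * (1 / 2 : ℝ) ^ k) • EuclideanSpace.single 0 1

/-- the radii -/
def rad (R : ℝ) (k : ℕ) : ℝ := R / 16 * (1 / 2 : ℝ) ^ k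

lemma rad_pos {R : ℝ} (hR : 0 < R) (k : ℕ) : 0 < rad R k := by unfold rad; positivity

lemma ball_sub {x₀ : E3} {R : ℝ} (hR : 0 < R) (k : ℕ) :
    Metric.ball (ctr x₀ R k) (rad R k) ⊆ Metric.closedBall x₀ R := by
  intro x hx
  rw [Metric.mem_ball] at hx
  rw [Metric.mem_closedBall]
  have h1 : dist (ctr x₀ R k) x₀ = R / 2 * (1 / 2 : ℝ) ^ k := by
    unfold ctr
    rw [dist_eq_norm, add_sub_cancel_left, norm_smul]
    simp
    exact hR.le
  have h2 := dist_triangle x (ctr x₀ R k) x₀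
  have h3 : (1 / 2 : ℝ) ^ k ≤ 1 := pow_le_one₀ (by norm_num) (by norm_num)
  have h4 : 0 < (1 / 2 : ℝ) ^ k := by positivity
  unfold rad at hx
  nlinarith

lemma ball_disj {x₀ : E3} {R : ℝ} (hR : 0 < R) {j k : ℕ} (hjk : j < k) {x : E3}
    (hj : x ∈ Metric.ball (ctr x₀ R j) (rad R j)) (hk : x ∈ Metric.ball (ctr x₀ R k) (rad R k)) :
    False := by
  rw [Metric.mem_ball] at hj hk
  have h1 : dist (ctr x₀ R j) (ctr x₀ R k) = R / 2 * ((1 / 2 : ℝ) ^ j - (1 / 2 : ℝ) ^ k) := by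
    unfold ctr
    rw [dist_eq_norm, add_sub_add_left_eq_sub, ← sub_smul, norm_smul]
    have h2 : (1 / 2 : ℝ) ^ k ≤ (1 / 2 : ℝ) ^ j :=
      pow_le_pow_of_le_one (by norm_num) (by norm_num) hjk.le
    simp only [EuclideanSpace.norm_single, norm_one, mul_one, Real.norm_eq_abs]
    rw [abs_of_nonneg (by nlinarith)]
    ring
  have h2 := dist_triangle_left (ctr x₀ R j) (ctr x₀ R k) x
  have h3 : (1 / 2 : ℝ) ^ k ≤ (1 / 2 : ℝ) ^ (j + 1) :=
    pow_le_pow_of_le_one (by norm_num) (by norm_num) hjk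
  rw [pow_succ] at h3
  have h4 : 0 < (1 / 2 : ℝ) ^ j := by positivity
  unfold rad at hj hk
  rw [h1] at h2
  nlinarith

/-- the family -/
theorem exists_family {Ω : Set E3} (hΩ : IsOpen Ω) (hbd : Bornology.IsBounded Ω)
    (hne : Ω.Nonempty) {T : ℝ} (hT : 0 < T) {v : Fin 3 → X → ℝ} (hv : ∀ i, ContDiff ℝ ∞ (v i))
    (hvc : ∀ i, HasCompactSupport (v i)) (hvs : ∀ i, tsupport (v i) ⊆ Cyl Ω T)
    (div : ∀ z, ∑ i, D (ev i) (v i) z = 0) {ε b : ℝ} (hε : 0 < ε) (hb : 0 < b)
    (hb1 : b ≤ 1 / 2) :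
    ∃ (F : Fam) (K₀ : Set X) (C c d : ℕ → ℝ), F.Ok K₀ b ∧ K₀ ⊆ Cyl Ω T ∧ F.Rate T bet C c d ∧
      (F.S 0 0).u = v ∧ (∀ i, tsupport (v i) ⊆ F.K 0) ∧ d 0 ≤ ε ∧ (∀ k, c (k + 1) ≤ ε) ∧
      ∀ k, ∃ z ∈ F.K (k + 1), ∃ i, d (k + 1) < |(F.S (k + 1) 0).u i z| := by
  set Kv : Set X := ⋃ i, tsupport (v i) with hKv
  have hKvc : IsCompact Kv := isCompact_iUnion fun i => hvc i
  have hKvs : Kv ⊆ Cyl Ω T := iUnion_subset hvs
  have hvK : ∀ i, tsupport (v i) ⊆ Kv := fun i => subset_iUnion (fun i => tsupport (v i)) i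
  have hP : IsCompact (Prod.snd '' Kv) := hKvc.image continuous_snd
  have hPΩ : Prod.snd '' Kv ⊆ Ω := by
    rintro x ⟨z, hz, rfl⟩
    exact (hKvs hz).2
  obtain ⟨x₀, R, hR, hRs⟩ := exists_ball hΩ hbd hne hP hPΩ
  have hslab : Cyl Ω T ⊆ slab T := fun z hz => ⟨hz.1.1.le, hz.1.2.le⟩
  -- the cutoff of the given field
  have hdisj : Disjoint (Metric.closedBall x₀ R ∪ (Metric.ball (0 : E3)
      (Classical.choose hP.isBounded.exists_norm_le + 1))ᶜ) (Prod.snd '' Kv) := by
    rw [Set.disjoint_left]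
    rintro x (hx | hx) hxP
    · exact (hRs hx).2 hxP
    · apply hx
      rw [mem_ball_zero_iff]
      have := Classical.choose_spec hP.isBounded.exists_norm_le x hxP
      linarith
  set M : ℝ := Classical.choose hP.isBounded.exists_norm_le + 1 with hM
  obtain ⟨χ₀, c0, c1, c2⟩ := exists_contMDiffMap_zero_one_of_isClosed (n := (⊤ : ℕ∞)) 𝓘(ℝ, E3)
    (Metric.isClosed_closedBall.union Metric.isOpen_ball.isClosed_compl) hP.isClosed hdisj
  have hχ₀s : ContDiff ℝ ∞ (χ₀ : E3 → ℝ) := χ₀.contMDiff.contDiff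
  have hχ₀c : HasCompactSupport (χ₀ : E3 → ℝ) := by
    refine HasCompactSupport.intro (isCompact_closedBall (0 : E3) M) fun x hx => ?_
    refine c0 (Or.inr fun hc => hx ?_)
    exact Metric.ball_subset_closedBall hc
  -- the balls
  set U : ℕ → Set X := fun k => Ioo (T / 4) (T / 2) ×ˢ Metric.ball (ctr x₀ R k) (rad R k / 2)
    with hU
  have hUo : ∀ k, IsOpen (U k) := fun k => isOpen_Ioo.prod Metric.isOpen_ball
  have hUne : ∀ k, (U k).Nonempty := fun k =>
    ⟨(T / 3, ctr x₀ R k), ⟨by constructor <;> linarith,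
      Metric.mem_ball_self (by have := rad_pos hR k; positivity)⟩⟩
  have hUsub : ∀ k, U k ⊆ Icc (T / 4) (T / 2) ×ˢ Metric.closedBall x₀ R := by
    intro k z hz
    refine ⟨Ioo_subset_Icc_self hz.1, ball_sub hR k ?_⟩
    exact Metric.ball_subset_ball (by have := rad_pos hR k; linarith) hz.2
  have hcyl : Icc (T / 4) (T / 2) ×ˢ Metric.closedBall x₀ R ⊆ Cyl Ω T := by
    intro z hz
    exact ⟨⟨by linarith [hz.1.1], by linarith [hz.1.2]⟩, (hRs hz.2).1⟩
  have hseq := fun k : ℕ => ball_seq (T := T) (hUo k) (hUne k)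
    ((hUsub k).trans (hcyl.trans hslab)) (η := ε * (1 / 2) ^ k) (b := b) (by positivity) hb
  choose K' S' d' g1 g2 g3 g4 g5 g6 using hseq
  obtain ⟨Sv, Cv, cv, s1, s2, s3, s4⟩ := main_seq (T := T) hKvc (hKvs.trans hslab) hv hvK div hε hb
  -- the bump functions
  set f : ∀ k, ContDiffBump (ctr x₀ R k) := fun k =>
    ⟨rad R k / 2, rad R k, by have := rad_pos hR k; positivity, by
      have := rad_pos hR k; linarith⟩ with hf
  set F : Fam := ⟨fun k => Nat.casesOn k Kv K', fun k => Nat.casesOn k Sv S',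
    fun k => Nat.casesOn k (χ₀ : E3 → ℝ) (fun k => (f k : E3 → ℝ))⟩ with hF
  have hsupp : ∀ k x, f k x ≠ 0 → x ∈ Metric.ball (ctr x₀ R k) (rad R k) := by
    intro k x hx
    have : x ∈ Function.support (f k) := hx
    rw [(f k).support_eq] at this
    exact this
  have hs : Summable fun k : ℕ => ε * (1 / 2 : ℝ) ^ k := summable_geometric_two.mul_left ε
  refine ⟨F, Kv ∪ Icc (T / 4) (T / 2) ×ˢ Metric.closedBall x₀ R,
    fun k => Nat.casesOn k Cv (fun k => ε * (1 / 2) ^ k),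
    fun k => Nat.casesOn k cv (fun k => ε * (1 / 2) ^ k),
    fun k => Nat.casesOn k ε d', ?_, union_subset hKvs hcyl, ?_, s2, hvK, le_rfl, ?_, g6⟩
  · refine ⟨?_, hKvc.union (isCompact_Icc.prod (isCompact_closedBall x₀ R)), ?_, ?_, ?_, ?_, ?_, ?_,
      ?_, ?_, ?_, hb1⟩
    · rintro (_ | k)
      · exact hKvc
      · exact g1 k
    · rintro (_ | k)
      · exact subset_union_left
      · exact ((g2 k).trans (hUsub k)).trans subset_union_right
    · rintro (_ | k) n
      · exact s1.good n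
      · exact (g3 k).good n
    · rintro (_ | k)
      · exact hχ₀s
      · exact (f k).contDiff
    · rintro (_ | k)
      · exact hχ₀c
      · exact (f k).hasCompactSupport
    · rintro (_ | k) x
      · exact (c2 x).1
      · exact (f k).nonneg
    · rintro (_ | k) x
      · exact (c2 x).2
      · exact (f k).le_one
    · rintro (_ | k) z hz
      · exact c1 ⟨z, hz, rfl⟩
      · refine (f k).one_of_mem_closedBall ?_
        exact Metric.ball_subset_closedBall (g2 k hz).2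
    · rintro (_ | j) (_ | k) x hjk hx
      · exact absurd rfl hjk
      · by_contra hne
        exact hx (c0 (Or.inl (ball_sub hR k (hsupp k x hne))))
      · exact c0 (Or.inl (ball_sub hR j (hsupp j x hx)))
      · by_contra hne
        rcases lt_trichotomy j k with h1 | h1 | h1
        · exact ball_disj hR h1 (hsupp j x hx) (hsupp k x hne)
        · exact hjk (by rw [h1])
        · exact ball_disj hR h1 (hsupp k x hne) (hsupp j x hx)
    · rintro (_ | k) n x
      · exact s1.r1 n x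
      · exact (g3 k).r1 n x
  · refine ⟨bet_summable, fun n => (bet_pos n).le, ?_, ?_, ?_, ?_, ?_, ?_, ?_, ?_, ?_, ?_, ?_, ?_,
      ?_, ?_, ?_, ?_⟩
    · exact (summable_nat_add_iff 1).1 hs
    · rintro (_ | k)
      · exact s3
      · change 0 ≤ ε * (1 / 2) ^ k
        positivity
    · exact (summable_nat_add_iff 1).1 hs
    · rintro (_ | k)
      · exact s4
      · change 0 ≤ ε * (1 / 2) ^ k
        positivity
    · rintro (_ | k)
      · exact s1.u
      · exact (g3 k).u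
    · rintro (_ | k)
      · exact s1.ux
      · exact (g3 k).ux
    · rintro (_ | k)
      · exact s1.uc
      · exact (g3 k).uc
    · rintro (_ | k)
      · exact s1.uxc
      · exact (g3 k).uxc
    · rintro (_ | k)
      · exact s1.ud
      · exact (g3 k).ud
    · rintro (_ | k)
      · exact s1.uxd
      · exact (g3 k).uxd
    · rintro (_ | k)
      · exact s1.r
      · exact (g3 k).r
    · rintro (_ | k)
      · exact s1.rc
      · exact (g3 k).rc
    · rintro (_ | k)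
      · exact s1.R2
      · exact (g3 k).R2
    · rintro (_ | k)
      · exact s1.f
      · exact (g3 k).f
    · rintro (_ | k)
      · exact s1.fc
      · exact (g3 k).fc
    · rintro (_ | k)
      · exact s1.e
      · exact (g3 k).e
  · intro k
    change ε * (1 / 2) ^ k ≤ ε
    have h3 : (1 / 2 : ℝ) ^ k ≤ 1 := pow_le_one₀ (by norm_num) (by norm_num)
    nlinarith

end

end Pool.Agent.Y616.MH
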