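import Pool.Agent.Y616.MH.Lab

/-!
# Glued states
-/

set_option autoImplicit false

open scoped ContDiff
open Set MeasureTheory Filter Topology Pool.Agent.H729R2

namespace Pool.Agent.Y616.MH

noncomputable section

/-- a sequence of disjoint sequences of states -/
structure Fam where
  K : ℕ → Set X
  S : ℕ → ℕ → St
  χ : ℕ → E3 → ℝ

structure Fam.Ok (F : Fam) (K₀ : Set X) (b : ℝ) : Prop where
  comp : ∀ k, IsCompact (F.K k)
  K₀c : IsCompact K₀
  sub : ∀ k, F.K k ⊆ K₀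
  good : ∀ k n, Good (F.K k) (F.S k n)
  χs : ∀ k, ContDiff ℝ ∞ (F.χ k)
  χc : ∀ k, HasCompactSupport (F.χ k)
  χ0 : ∀ k x, 0 ≤ F.χ k x
  χle : ∀ k x, F.χ k x ≤ 1
  χ1 : ∀ k, ∀ z ∈ F.K k, F.χ k z.2 = 1
  χd : ∀ j k x, j ≠ k → F.χ j x ≠ 0 → F.χ k x = 0
  r1 : ∀ k n x, |(F.S k n).r x - 1| ≤ b
  b1 : b ≤ 1 / 2

open Classical in
/-- the indices `k ≤ n` in `A` -/
def idx (A : Set ℕ) (n : ℕ) : Finset ℕ := (Finset.range (n + 1)).filter (· ∈ A)

lemma mem_idx {A : Set ℕ} {n k : ℕ} : k ∈ idx A n ↔ k ≤ n ∧ k ∈ A := by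
  classical
  unfold idx
  rw [Finset.mem_filter, Finset.mem_range, Nat.lt_succ_iff]

/-- the glued states: the fluid moves in the balls with index in `A` only -/
def Fam.G (F : Fam) (A : Set ℕ) (n : ℕ) : St where
  u i z := ∑ k ∈ idx A n, (F.S k n).u i z
  r x := 1 + ∑ k ∈ Finset.range (n + 1), F.χ k x * ((F.S k n).r x - 1)
  p z := ∑ k ∈ idx A n, (F.S k n).p z
  q z := ∑ k ∈ idx A n, (F.S k n).q z

namespace Fam.Ok

variable {F : Fam} {K₀ : Set X} {b : ℝ} (h : F.Ok K₀ b)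
include h

lemma b0 : 0 ≤ b := (abs_nonneg _).trans (h.r1 0 0 0)

lemma eq_of_mem {j k : ℕ} {x : E3} (hj : x ∈ Prod.snd '' F.K j) (hk : x ∈ Prod.snd '' F.K k) :
    j = k := by
  obtain ⟨z, hz, rfl⟩ := hj
  obtain ⟨z', hz', he⟩ := hk
  by_contra hne
  have h1 := h.χ1 j z hz
  have h2 := h.χd j k z.2 hne (by rw [h1]; exact one_ne_zero)
  have h3 := h.χ1 k z' hz'
  rw [he, h2] at h3
  exact zero_ne_one h3

lemma col {A : Set ℕ} {n k : ℕ} (hk : k ∈ idx A n) {x : E3} (hx : x ∈ Prod.snd '' F.K k)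
    {t : ℝ} {g : ℕ → X → ℝ} (hg : ∀ j z, z ∉ F.K j → g j z = 0) :
    ∑ j ∈ idx A n, g j (t, x) = g k (t, x) := by
  refine Finset.sum_eq_single_of_mem k hk fun j _ hne => hg j _ fun hc => hne ?_
  exact h.eq_of_mem ⟨_, hc, rfl⟩ hx

omit h in
lemma col0 {A : Set ℕ} {n : ℕ} {z : X} (hz : ∀ k ∈ idx A n, z ∉ F.K k)
    {g : ℕ → X → ℝ} (hg : ∀ j z, z ∉ F.K j → g j z = 0) :
    ∑ j ∈ idx A n, g j z = 0 :=
  Finset.sum_eq_zero fun j hj => hg j _ (hz j hj)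

lemma u0 (i : Fin 3) (n : ℕ) (j : ℕ) (z : X) (hz : z ∉ F.K j) : (F.S j n).u i z = 0 :=
  image_eq_zero_of_notMem_tsupport fun h' => hz ((h.good j n).uK i h')

lemma Du0 (i : Fin 3) (v : X) (n : ℕ) (j : ℕ) (z : X) (hz : z ∉ F.K j) :
    D v ((F.S j n).u i) z = 0 :=
  D_eq_zero_of_notMem _ fun h' => hz ((h.good j n).uK i h')

lemma DDu0 (i : Fin 3) (v w : X) (n : ℕ) (j : ℕ) (z : X) (hz : z ∉ F.K j) :
    D v (D w ((F.S j n).u i)) z = 0 :=
  D_eq_zero_of_notMem _ fun h' => hz ((h.good j n).uK i (tsupport_D_subset _ _ h'))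

lemma Dp0 (v : X) (n : ℕ) (j : ℕ) (z : X) (hz : z ∉ F.K j) : D v (F.S j n).p z = 0 :=
  D_eq_zero_of_notMem _ fun h' => hz ((h.good j n).pK h')

lemma Dq0 (v : X) (n : ℕ) (j : ℕ) (z : X) (hz : z ∉ F.K j) : D v (F.S j n).q z = 0 :=
  D_eq_zero_of_notMem _ fun h' => hz ((h.good j n).qK h')

omit h in
lemma Gu_eq (A : Set ℕ) (n : ℕ) (i : Fin 3) :
    (F.G A n).u i = fun z => ∑ k ∈ idx A n, (F.S k n).u i z := rfl

omit h in
lemma Gp_eq (A : Set ℕ) (n : ℕ) : (F.G A n).p = fun z => ∑ k ∈ idx A n, (F.S k n).p z := rfl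

omit h in
lemma Gq_eq (A : Set ℕ) (n : ℕ) : (F.G A n).q = fun z => ∑ k ∈ idx A n, (F.S k n).q z := rfl

lemma Gu_smooth (A : Set ℕ) (n : ℕ) (i : Fin 3) : ContDiff ℝ ∞ ((F.G A n).u i) := by
  rw [Gu_eq]
  exact ContDiff.sum fun k _ => (h.good k n).hu i

lemma Gp_smooth (A : Set ℕ) (n : ℕ) : ContDiff ℝ ∞ (F.G A n).p := by
  rw [Gp_eq]
  exact ContDiff.sum fun k _ => (h.good k n).hp

lemma Gq_smooth (A : Set ℕ) (n : ℕ) : ContDiff ℝ ∞ (F.G A n).q := by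
  rw [Gq_eq]
  exact ContDiff.sum fun k _ => (h.good k n).hq

lemma D_Gu (A : Set ℕ) (n : ℕ) (i : Fin 3) (v : X) :
    D v ((F.G A n).u i) = fun z => ∑ k ∈ idx A n, D v ((F.S k n).u i) z := by
  rw [Gu_eq]
  exact D_sum _ (fun k _ => (h.good k n).hu i) v

lemma DD_Gu (A : Set ℕ) (n : ℕ) (i : Fin 3) (v w : X) :
    D v (D w ((F.G A n).u i)) = fun z => ∑ k ∈ idx A n, D v (D w ((F.S k n).u i)) z := by
  rw [h.D_Gu]
  exact D_sum _ (fun k _ => D_smooth ((h.good k n).hu i) w) v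

lemma D_Gp (A : Set ℕ) (n : ℕ) (v : X) :
    D v (F.G A n).p = fun z => ∑ k ∈ idx A n, D v (F.S k n).p z := by
  rw [Gp_eq]
  exact D_sum _ (fun k _ => (h.good k n).hp) v

lemma D_Gq (A : Set ℕ) (n : ℕ) (v : X) :
    D v (F.G A n).q = fun z => ∑ k ∈ idx A n, D v (F.S k n).q z := by
  rw [Gq_eq]
  exact D_sum _ (fun k _ => (h.good k n).hq) v

/-- the support -/
lemma tsupport_sum_subset (A : Set ℕ) (n : ℕ) {g : ℕ → X → ℝ} {B : ℕ → Set X}
    (hB : ∀ k ∈ idx A n, tsupport (g k) ⊆ B k) :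
    tsupport (fun z => ∑ k ∈ idx A n, g k z) ⊆ ⋃ k ∈ idx A n, B k := by
  have hcl : IsClosed (⋃ k ∈ idx A n, tsupport (g k)) :=
    isClosed_biUnion_finset fun k _ => isClosed_tsupport _
  have h1 : tsupport (fun z => ∑ k ∈ idx A n, g k z) ⊆ ⋃ k ∈ idx A n, tsupport (g k) := by
    refine closure_minimal (fun z hz => ?_) hcl
    by_contra hcon
    simp only [mem_iUnion, not_exists] at hcon
    refine hz (Finset.sum_eq_zero fun k hk => ?_)
    exact image_eq_zero_of_notMem_tsupport (hcon k hk)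
  exact h1.trans (iUnion₂_mono hB)

lemma r_sum (n : ℕ) (x : E3) : |(F.G ∅ n).r x - 1| ≤ b := by
  have e : (F.G ∅ n).r x - 1 = ∑ k ∈ Finset.range (n + 1), F.χ k x * ((F.S k n).r x - 1) := by
    simp [Fam.G]
  rw [e]
  by_cases hx : ∃ k ∈ Finset.range (n + 1), F.χ k x ≠ 0
  · obtain ⟨k, hk, hne⟩ := hx
    rw [Finset.sum_eq_single_of_mem k hk fun j _ hjk => by
      rw [h.χd k j x (Ne.symm hjk) hne, zero_mul]]
    rw [abs_mul, abs_of_nonneg (h.χ0 k x)]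
    calc F.χ k x * |(F.S k n).r x - 1| ≤ 1 * b :=
          mul_le_mul (h.χle k x) (h.r1 k n x) (abs_nonneg _) zero_le_one
      _ = b := one_mul b
  · push Not at hx
    rw [Finset.sum_eq_zero fun k hk => by rw [hx k hk, zero_mul], abs_zero]
    exact h.b0

omit h in
lemma G_r (A B : Set ℕ) (n : ℕ) : (F.G A n).r = (F.G B n).r := rfl

lemma r_on (A : Set ℕ) {n k : ℕ} (hk : k ≤ n) {x : E3} (hx : x ∈ Prod.snd '' F.K k) :
    (F.G A n).r x = (F.S k n).r x := by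
  obtain ⟨z, hz, rfl⟩ := hx
  have h1 := h.χ1 k z hz
  change 1 + ∑ j ∈ Finset.range (n + 1), F.χ j z.2 * ((F.S j n).r z.2 - 1) = _
  rw [Finset.sum_eq_single_of_mem k (Finset.mem_range.2 (by omega)) fun j _ hjk => by
    rw [h.χd k j z.2 (Ne.symm hjk) (by rw [h1]; exact one_ne_zero), zero_mul]]
  rw [h1]
  ring

lemma good_G (A : Set ℕ) (n : ℕ) : Good K₀ (F.G A n) := by
  have hus : ∀ i, tsupport ((F.G A n).u i) ⊆ ⋃ k ∈ idx A n, F.K k := fun i =>
    h.tsupport_sum_subset A n fun k _ => (h.good k n).uK i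
  have key : ∀ {g : ℕ → X → ℝ}, (∀ k, tsupport (g k) ⊆ {z | ∃ i, (F.S k n).u i z ≠ 0}) →
      tsupport (fun z => ∑ k ∈ idx A n, g k z) ⊆ {z | ∃ i, (F.G A n).u i z ≠ 0} := by
    intro g hg z hz
    have h1 := h.tsupport_sum_subset A n (g := g) (fun k _ => hg k) hz
    simp only [mem_iUnion, mem_setOf_eq] at h1
    obtain ⟨k, hk, i, hi⟩ := h1
    refine ⟨i, ?_⟩
    have hzk : z ∈ F.K k := by
      by_contra hcon
      exact hi (h.u0 i n k z hcon)
    have h2 := h.col hk (x := z.2) (t := z.1) ⟨z, hzk, rfl⟩ (g := fun k => (F.S k n).u i)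
      (fun j z hz => h.u0 i n j z hz)
    change ∑ j ∈ idx A n, (F.S j n).u i z ≠ 0
    rw [h2]
    exact hi
  refine ⟨h.Gu_smooth A n, ?_, h.Gp_smooth A n, h.Gq_smooth A n, ?_, key fun k => (h.good k n).pu,
    key fun k => (h.good k n).qu, ?_, ?_, ?_, ?_⟩
  · exact contDiff_const.add (ContDiff.sum fun k _ =>
      (h.χs k).mul ((h.good k n).hr.sub contDiff_const))
  · intro i z hz
    obtain ⟨k, -, hk⟩ := mem_iUnion₂.1 (hus i hz)
    exact h.sub k hk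
  · intro z
    simp only [h.D_Gu]
    rw [Finset.sum_comm]
    exact Finset.sum_eq_zero fun k _ => (h.good k n).div z
  · -- Lipschitz
    have h1 : ContDiff ℝ ∞ (fun x => ∑ k ∈ Finset.range (n + 1), F.χ k x * ((F.S k n).r x - 1)) :=
      ContDiff.sum fun k _ => (h.χs k).mul ((h.good k n).hr.sub contDiff_const)
    have h2 : IsCompact (⋃ k ∈ Finset.range (n + 1), tsupport (F.χ k)) :=
      (Finset.range (n + 1)).isCompact_biUnion fun k _ => h.χc k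
    have h3 : HasCompactSupport
        (fun x => ∑ k ∈ Finset.range (n + 1), F.χ k x * ((F.S k n).r x - 1)) := by
      refine HasCompactSupport.intro h2 fun x hx => ?_
      simp only [mem_iUnion, not_exists] at hx
      exact Finset.sum_eq_zero fun k hk => by
        rw [image_eq_zero_of_notMem_tsupport (hx k hk), zero_mul]
    obtain ⟨C, hC⟩ := ContDiff.lipschitzWith_of_hasCompactSupport h3 h1 (by simp)
    refine ⟨0 + C, ?_⟩
    exact (LipschitzWith.const (1:ℝ)).add hC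
  · intro x
    have := (abs_le.1 (h.r_sum n x)).1
    have hb := h.b1
    change 1 / 2 ≤ (F.G ∅ n).r x
    linarith
  · intro x
    have := (abs_le.1 (h.r_sum n x)).2
    have hb := h.b1
    change (F.G ∅ n).r x ≤ 2
    linarith

lemma Gu_hcs (A : Set ℕ) (n : ℕ) (i : Fin 3) : HasCompactSupport ((F.G A n).u i) :=
  (h.good_G A n).ucs h.K₀c i

/-- the labels of the glued state -/
lemma R2_at {A : Set ℕ} {n k : ℕ} (hk : k ∈ idx A n) {z : X} (hz : z.2 ∈ Prod.snd '' F.K k) :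
    (F.G A n).R2 z = (F.S k n).R2 z := by
  have hwc : ∀ i, HasCompactSupport ((F.S k n).u i) := fun i =>
    (h.good k n).ucs (h.comp k) i
  have h1 : ∀ z : X, z.2 ∉ Prod.snd '' F.K k → ∀ i, (F.S k n).u i z = 0 := fun z hz i =>
    h.u0 i n k z fun hc => hz ⟨z, hc, rfl⟩
  have h2 : ∀ z : X, z.2 ∈ Prod.snd '' F.K k → ∀ i, (F.G A n).u i z = (F.S k n).u i z :=
    fun z hz i => h.col hk (x := z.2) (t := z.1) hz (g := fun k => (F.S k n).u i)
      (fun j z hz => h.u0 i n j z hz)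
  unfold St.R2
  have h3 : (fun i => lab (F.G A n).u i z) = fun i => lab (F.S k n).u i z := by
    funext i
    exact lab_eq (h.Gu_smooth A n) (h.Gu_hcs A n) (h.good k n).hu hwc h1 h2 hz i
  rw [h3]
  exact h.r_on A (mem_idx.1 hk).1 (lab_mem (h.good k n).hu hwc h1 hz)

lemma R2_off {A : Set ℕ} {n : ℕ} {z : X} (hz : ∀ k ∈ idx A n, z.2 ∉ Prod.snd '' F.K k) :
    (F.G A n).R2 z = (F.G A n).r z.2 := by
  unfold St.R2
  congr 1
  ext i
  refine lab_const (h.Gu_smooth A n) (h.Gu_hcs A n) (fun t i => ?_) i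
  rw [Gu_eq]
  exact col0 (F := F) (z := ((t, z.2) : X)) (g := fun k => (F.S k n).u i)
    (fun k hk hc => hz k hk ⟨(t, z.2), hc, rfl⟩) (fun j z hz => h.u0 i n j z hz)

section at_mem

variable {A : Set ℕ} {n k : ℕ} (hk : k ∈ idx A n) {z : X} (hz : z ∈ F.K k)
include hk hz

lemma u_at (i : Fin 3) : (F.G A n).u i z = (F.S k n).u i z :=
  h.col hk (x := z.2) (t := z.1) ⟨z, hz, rfl⟩ (g := fun k => (F.S k n).u i)
      (fun j z hz => h.u0 i n j z hz)

lemma Du_at (i : Fin 3) (v : X) : D v ((F.G A n).u i) z = D v ((F.S k n).u i) z := by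
  rw [h.D_Gu]
  exact h.col hk (x := z.2) (t := z.1) ⟨z, hz, rfl⟩ (g := fun k => D v ((F.S k n).u i))
      (fun j z hz => h.Du0 i v n j z hz)

lemma DDu_at (i : Fin 3) (v w : X) :
    D v (D w ((F.G A n).u i)) z = D v (D w ((F.S k n).u i)) z := by
  rw [h.DD_Gu]
  exact h.col hk (x := z.2) (t := z.1) ⟨z, hz, rfl⟩ (g := fun k => D v (D w ((F.S k n).u i)))
      (fun j z hz => h.DDu0 i v w n j z hz)

lemma Dp_at (v : X) : D v (F.G A n).p z = D v (F.S k n).p z := by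
  rw [h.D_Gp]
  exact h.col hk (x := z.2) (t := z.1) ⟨z, hz, rfl⟩ (g := fun k => D v (F.S k n).p)
      (fun j z hz => h.Dp0 v n j z hz)

lemma Dq_at (v : X) : D v (F.G A n).q z = D v (F.S k n).q z := by
  rw [h.D_Gq]
  exact h.col hk (x := z.2) (t := z.1) ⟨z, hz, rfl⟩ (g := fun k => D v (F.S k n).q)
      (fun j z hz => h.Dq0 v n j z hz)

lemma R1_at : (F.G A n).R1 z = (F.S k n).R1 z :=
  h.r_on A (mem_idx.1 hk).1 ⟨z, hz, rfl⟩

lemma e_at (i : Fin 3) : (F.G A n).e i z = (F.S k n).e i z := by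
  unfold St.e St.acc St.b St.gp
  rw [h.R1_at hk hz, h.R2_at hk ⟨z, hz, rfl⟩, h.Dp_at hk hz, h.Dq_at hk hz, h.Du_at hk hz]
  simp only [h.DDu_at hk hz, h.Du_at hk hz, h.u_at hk hz]

lemma ff_at (i : Fin 3) : ff (F.G A n) i z = ff (F.S k n) i z := by
  unfold ff St.gp
  rw [h.R1_at hk hz, h.Dp_at hk hz]

end at_mem

section off

variable {A : Set ℕ} {n : ℕ} {z : X} (hz : ∀ k ∈ idx A n, z ∉ F.K k)
include hz

lemma u_off (i : Fin 3) : (F.G A n).u i z = 0 :=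
  col0 (F := F) hz (g := fun k => (F.S k n).u i) (fun j z hz => h.u0 i n j z hz)

lemma Du_off (i : Fin 3) (v : X) : D v ((F.G A n).u i) z = 0 := by
  rw [h.D_Gu]
  exact col0 (F := F) hz (g := fun k => D v ((F.S k n).u i)) (fun j z hz => h.Du0 i v n j z hz)

lemma DDu_off (i : Fin 3) (v w : X) : D v (D w ((F.G A n).u i)) z = 0 := by
  rw [h.DD_Gu]
  exact col0 (F := F) hz (g := fun k => D v (D w ((F.S k n).u i)))
    (fun j z hz => h.DDu0 i v w n j z hz)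

lemma Dp_off (v : X) : D v (F.G A n).p z = 0 := by
  rw [h.D_Gp]
  exact col0 (F := F) hz (g := fun k => D v (F.S k n).p) (fun j z hz => h.Dp0 v n j z hz)

lemma Dq_off (v : X) : D v (F.G A n).q z = 0 := by
  rw [h.D_Gq]
  exact col0 (F := F) hz (g := fun k => D v (F.S k n).q) (fun j z hz => h.Dq0 v n j z hz)

lemma e_off (i : Fin 3) : (F.G A n).e i z = 0 := by
  unfold St.e St.acc St.b St.gp
  rw [h.Dp_off hz, h.Dq_off hz, h.Du_off hz]
  simp only [h.DDu_off hz, h.Du_off hz, h.u_off hz]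
  simp

lemma ff_off (i : Fin 3) : ff (F.G A n) i z = 0 := by
  unfold ff St.gp
  rw [h.Dp_off hz, mul_zero]

end off

end Fam.Ok

end

end Pool.Agent.Y616.MH
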