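import Pool.Agent.H729R2.Fin4

/-!
# Labels of glued velocity fields
-/

set_option autoImplicit false

open scoped ContDiff
open Set MeasureTheory Filter Topology Pool.Agent.H664.Flow Pool.Agent.H729R2

namespace Pool.Agent.Y616.MH

noncomputable section

/-- where the field vanishes for all times, the particles do not move -/
lemma flw_const {u : Fin 3 → X → ℝ} (hu : ∀ i, ContDiff ℝ ∞ (u i))
    (hc : ∀ i, HasCompactSupport (u i)) {z : X} (hz : ∀ (t : ℝ) i, u i (t, z.2) = 0) (s : ℝ) :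
    flw u s z = (z.1 + s, z.2) := by
  obtain ⟨K, hK⟩ := fld_lip hu hc
  have hf := flw_isFlow hu hc
  have h1 : (fun s => flw u s z) = fun s : ℝ => ((z.1 + s, z.2) : X) := by
    refine ODE_solution_unique_univ (v := fun _ => fld u) (s := fun _ => univ) (K := K) (t₀ := 0)
      (fun t => hK.lipschitzOnWith) (fun t => ⟨hf.deriv z t, trivial⟩) (fun t => ⟨?_, trivial⟩) ?_
    · have h2 : fld u (z.1 + t, z.2) = ((1, 0) : X) := by
        unfold fld
        refine Prod.ext rfl ?_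
        ext i
        simp only [vec_apply]
        exact hz (z.1 + t) i
      rw [h2]
      have h3 : HasDerivAt (fun s : ℝ => z.1 + s) 1 t := (hasDerivAt_id t).const_add z.1
      exact h3.prodMk (hasDerivAt_const t z.2)
    · simp [hf.zero]
  exact congrFun h1 s

lemma lab_const {u : Fin 3 → X → ℝ} (hu : ∀ i, ContDiff ℝ ∞ (u i))
    (hc : ∀ i, HasCompactSupport (u i)) {z : X} (hz : ∀ (t : ℝ) i, u i (t, z.2) = 0) (i : Fin 3) :
    lab u i z = z.2 i := by
  unfold lab
  rw [flw_const hu hc hz]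

/-- if `w` vanishes outside of `P`, then the particles of `P` stay in `P` -/
lemma flw_mem {w : Fin 3 → X → ℝ} (hw : ∀ i, ContDiff ℝ ∞ (w i))
    (hwc : ∀ i, HasCompactSupport (w i)) {P : Set E3} (h1 : ∀ z : X, z.2 ∉ P → ∀ i, w i z = 0)
    {z : X} (hz : z.2 ∈ P) (s : ℝ) : (flw w s z).2 ∈ P := by
  obtain ⟨K', hK'⟩ := fld_lip hw hwc
  have hg := flw_isFlow hw hwc
  by_contra hcon
  have h3 := flw_const hw hwc (z := flw w s z) (fun t i => h1 (t, _) hcon i) (-s)
  rw [← hg.add hK', neg_add_cancel, hg.zero] at h3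
  have h4 := congrArg Prod.snd h3
  rw [← h4] at hcon
  exact hcon hz

lemma lab_mem {w : Fin 3 → X → ℝ} (hw : ∀ i, ContDiff ℝ ∞ (w i))
    (hwc : ∀ i, HasCompactSupport (w i)) {P : Set E3} (h1 : ∀ z : X, z.2 ∉ P → ∀ i, w i z = 0)
    {z : X} (hz : z.2 ∈ P) : vec (fun i => lab w i z) ∈ P := by
  have h2 := flw_mem hw hwc h1 hz (-z.1)
  have h3 : vec (fun i => lab w i z) = (flw w (-z.1) z).2 := by
    ext i
    rfl
  rwa [h3]

/-- if `u` and `w` agree over `P` and `w` vanishes elsewhere, then the flows agree over `P` -/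
lemma flw_eq {u w : Fin 3 → X → ℝ} (hu : ∀ i, ContDiff ℝ ∞ (u i))
    (hc : ∀ i, HasCompactSupport (u i)) (hw : ∀ i, ContDiff ℝ ∞ (w i))
    (hwc : ∀ i, HasCompactSupport (w i)) {P : Set E3} (h1 : ∀ z : X, z.2 ∉ P → ∀ i, w i z = 0)
    (h2 : ∀ z : X, z.2 ∈ P → ∀ i, u i z = w i z) {z : X} (hz : z.2 ∈ P) (s : ℝ) :
    flw u s z = flw w s z := by
  obtain ⟨K, hK⟩ := fld_lip hu hc
  obtain ⟨K', hK'⟩ := fld_lip hw hwc
  have hf := flw_isFlow hu hc
  have hg := flw_isFlow hw hwc
  have hin : ∀ s, (flw w s z).2 ∈ P := by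
    intro s
    by_contra hcon
    have h3 := flw_const hw hwc (z := flw w s z) (fun t i => h1 (t, _) hcon i) (-s)
    rw [← hg.add hK', neg_add_cancel, hg.zero] at h3
    have h4 := congrArg Prod.snd h3
    rw [← h4] at hcon
    exact hcon hz
  have h3 : (fun s => flw u s z) = fun s => flw w s z := by
    refine ODE_solution_unique_univ (v := fun _ => fld u) (s := fun _ => univ) (K := K) (t₀ := 0)
      (fun t => hK.lipschitzOnWith) (fun t => ⟨hf.deriv z t, trivial⟩) (fun t => ⟨?_, trivial⟩) ?_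
    · have h4 : fld u (flw w t z) = fld w (flw w t z) := by
        unfold fld
        refine Prod.ext rfl ?_
        ext i
        simp only [vec_apply]
        exact h2 _ (hin t) i
      rw [h4]
      exact hg.deriv z t
    · simp [hf.zero, hg.zero]
  exact congrFun h3 s

lemma lab_eq {u w : Fin 3 → X → ℝ} (hu : ∀ i, ContDiff ℝ ∞ (u i))
    (hc : ∀ i, HasCompactSupport (u i)) (hw : ∀ i, ContDiff ℝ ∞ (w i))
    (hwc : ∀ i, HasCompactSupport (w i)) {P : Set E3} (h1 : ∀ z : X, z.2 ∉ P → ∀ i, w i z = 0)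
    (h2 : ∀ z : X, z.2 ∈ P → ∀ i, u i z = w i z) {z : X} (hz : z.2 ∈ P) (i : Fin 3) :
    lab u i z = lab w i z := by
  unfold lab
  rw [flw_eq hu hc hw hwc h1 h2 hz]

end

end Pool.Agent.Y616.MH
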