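import Pool.Agent.Y616.MH.Rate

/-!
# Limits of glued states
-/

set_option autoImplicit false

open scoped ContDiff
open Set MeasureTheory Filter Topology Pool.Agent.H729R2

namespace Pool.Agent.Y616.MH

noncomputable section

/-- the region of motion -/
def Fam.W (F : Fam) (A : Set ℕ) : Set X := ⋃ k ∈ A, F.K k

/-- the limits for the index set `A` -/
structure LimA (F : Fam) (K₀ : Set X) (T b : ℝ) (c d : ℕ → ℝ) (rL : E3 → ℝ) (fL : Fin 3 → X → ℝ)
    (A : Set ℕ) (uL : Fin 3 → X → ℝ) (tL : Fin 3 → X → ℝ) (xL : Fin 3 → Fin 3 → X → ℝ)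
    (RL : X → ℝ) : Prop where
  lims : Lims K₀ T b (F.G A) uL xL rL RL (fun i => (F.W A).indicator (fL i))
  tc : ∀ i, Continuous (tL i)
  tl : ∃ a : ℕ → ℝ, Tendsto a atTop (𝓝 0) ∧ ∀ i n z, |D et ((F.G A n).u i) z - tL i z| ≤ a n
  ud : ∀ k ∈ A, ∀ z ∈ F.K k, ∀ i, |uL i z - (F.S k 0).u i z| ≤ d k
  td : ∀ k ∈ A, ∀ z ∈ F.K k, ∀ i, |tL i z - D et ((F.S k 0).u i) z| ≤ d k
  xd : ∀ k ∈ A, ∀ z ∈ F.K k, ∀ i j, |xL i j z - D (ev j) ((F.S k 0).u i) z| ≤ d k
  uc : ∀ k ∈ A, ∀ z ∈ F.K k, ∀ i, |uL i z| ≤ c k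
  tcl : ∀ k ∈ A, ∀ z ∈ F.K k, ∀ i, |tL i z| ≤ c k
  xcl : ∀ k ∈ A, ∀ z ∈ F.K k, ∀ i j, |xL i j z| ≤ c k
  off : ∀ z, z ∉ F.W A → ∀ i, uL i z = 0 ∧ tL i z = 0 ∧ ∀ j, xL i j z = 0
  R : ∀ z ∈ slab T, (∀ k ∈ A, z.2 ∉ Prod.snd '' F.K k) → RL z = rL z.2

lemma tail_tendsto (b : ℕ → ℝ) : Tendsto (fun n => ∑' m, b (n + m)) atTop (𝓝 0) := by
  have := tendsto_sum_nat_add b
  simpa [add_comm] using this

namespace Fam.Ok

variable {F : Fam} {K₀ : Set X} {b T : ℝ} (h : F.Ok K₀ b) {β C c d : ℕ → ℝ}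
include h

lemma W_meas (A : Set ℕ) : MeasurableSet (F.W A) :=
  MeasurableSet.biUnion (Set.to_countable A) fun k _ => (h.comp k).measurableSet

lemma ff_ind (A : Set ℕ) (n : ℕ) (i : Fin 3) (z : X) :
    ff (F.G A n) i z = (F.W A).indicator (ff (F.G univ n) i) z := by
  by_cases hz : z ∈ F.W A
  · rw [Set.indicator_of_mem hz]
    obtain ⟨k, hkA, hk⟩ := mem_iUnion₂.1 hz
    by_cases hkn : k ≤ n
    · rw [h.ff_at (mem_idx.2 ⟨hkn, hkA⟩) hk, h.ff_at (mem_idx.2 ⟨hkn, mem_univ k⟩) hk]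
    · rw [h.ff_off fun j hj hc => ?_, h.ff_off fun j hj hc => ?_]
      · have h1 := h.eq_of_mem ⟨z, hc, rfl⟩ ⟨z, hk, rfl⟩
        have h2 := (mem_idx.1 hj).1
        omega
      · have h1 := h.eq_of_mem ⟨z, hc, rfl⟩ ⟨z, hk, rfl⟩
        have h2 := (mem_idx.1 hj).1
        omega
  · rw [Set.indicator_of_notMem hz]
    exact h.ff_off (fun j hj hc => hz (mem_iUnion₂.2 ⟨j, (mem_idx.1 hj).2, hc⟩)) i

theorem exists_limits (hr : F.Rate T β C c d) (hT : 0 < T) :
    ∃ (rL : E3 → ℝ) (fL : Fin 3 → X → ℝ), (∀ i, MemLp (fL i) 2 (volume : Measure X)) ∧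
      (∀ i z, z ∉ F.W univ → fL i z = 0) ∧ ∀ A : Set ℕ, ∃ uL tL xL RL,
        LimA F K₀ T b c d rL fL A uL tL xL RL := by
  have hs : Summable (fun n => β n + c (n + 1)) := hr.βs.add ((summable_nat_add_iff 1).2 hr.cs)
  have hs2 : Summable (fun n => (∑' k, C k) * β n + c (n + 1)) :=
    (hr.βs.mul_left _).add ((summable_nat_add_iff 1).2 hr.cs)
  obtain ⟨rL, rc, rl, -⟩ := exists_ulim (fun n => (F.G ∅ n).r)
    (fun n => (h.good_G ∅ n).hr.continuous) _ hs (fun n x => h.G_rd hr n x)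
  have hf0 : ∀ n i, MemLp (ff (F.G univ n) i) 2 (volume : Measure X) := fun n i =>
    memLp_cc (((h.good_G univ n).R1s.mul ((h.good_G univ n).gps i)).continuous)
      (HasCompactSupport.intro h.K₀c fun z hz => by simp [ff, (h.good_G univ n).gp_zero hz])
  have hf := fun i => exists_L2lim h.K₀c (fun n => ff (F.G univ n) i) (fun n => hf0 n i)
    (fun n z hz => by simp [ff, (h.good_G univ n).gp_zero hz]) _ hs2
    (fun n => h.G_f hr univ n i)
  choose f1 fm fz fl using hf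
  set fL : Fin 3 → X → ℝ := fun i => (F.W univ).indicator (f1 i) with hfL
  have hfm : ∀ i, MemLp (fL i) 2 (volume : Measure X) := fun i => (fm i).indicator (h.W_meas univ)
  refine ⟨rL, fL, hfm, fun i z hz => Set.indicator_of_notMem hz _, fun A => ?_⟩
  -- velocity
  have hu := fun i => exists_ulim (fun n => (F.G A n).u i)
    (fun n => (h.Gu_smooth A n i).continuous) _ hs (fun n z => h.G_u hr A n i z)
  choose uL uc ul ub using hu
  have ht := fun i => exists_ulim (fun n => D et ((F.G A n).u i))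
    (fun n => (D_smooth (h.Gu_smooth A n i) et).continuous) _ hs
    (fun n z => h.G_ux hr A n i (Or.inl rfl) z)
  choose tL tc tl tb using ht
  have hx := fun i j => exists_ulim (fun n => D (ev j) ((F.G A n).u i))
    (fun n => (D_smooth (h.Gu_smooth A n i) (ev j)).continuous) _ hs
    (fun n z => h.G_ux hr A n i (Or.inr ⟨j, rfl⟩) z)
  choose xL xc xl xb using hx
  -- the transported density
  set cl : X → X := fun z => (max 0 (min z.1 T), z.2) with hcl
  have hclc : Continuous cl := by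
    refine Continuous.prodMk ?_ continuous_snd
    exact continuous_const.max (continuous_fst.min continuous_const)
  have hcls : ∀ z, cl z ∈ slab T := fun z =>
    ⟨le_max_left _ _, max_le hT.le (min_le_right _ _)⟩
  have hcle : ∀ z ∈ slab T, cl z = z := fun z hz => by
    refine Prod.ext ?_ rfl
    simp only [hcl]
    rw [min_eq_left hz.2, max_eq_right hz.1]
  obtain ⟨RL, Rc, Rl, -⟩ := exists_ulim (fun n z => (F.G A n).R2 (cl z))
    (fun n => ((h.good_G A n).R2s h.K₀c).continuous.comp hclc) _ hs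
    (fun n z => h.G_R2 hr A n (hcls z))
  have hev : ∀ k : ℕ, ∀ᶠ n : ℕ in atTop, k ≤ n := fun k => eventually_ge_atTop k
  have hRl : ∀ z ∈ slab T, Tendsto (fun n => (F.G A n).R2 z) atTop (𝓝 (RL z)) := by
    intro z hz'
    have := Rl z
    rwa [hcle z hz'] at this
  refine ⟨uL, tL, xL, RL, ⟨h.good_G A, uc, ⟨_, tail_tendsto (fun n => β n + c (n + 1)), fun i n z => ub i n z⟩, xc,
    ⟨_, tail_tendsto (fun n => β n + c (n + 1)), fun i j n z => xb i j n z⟩, rc, rl, Rc, hRl, ?_, ?_,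
    fun i => (hfm i).indicator (h.W_meas A), ?_, ?_, ?_⟩, tc,
    ⟨_, tail_tendsto (fun n => β n + c (n + 1)), fun i n z => tb i n z⟩, ?_, ?_, ?_, ?_, ?_, ?_, ?_, ?_⟩
  · intro x
    exact le_of_tendsto' ((rl x).sub_const 1).abs fun n => h.r_sum n x
  · intro z
    exact le_of_tendsto' ((Rl z).sub_const 1).abs fun n => h.r_sum n _
  · intro i z hz
    refine Set.indicator_of_notMem (fun hc => hz ?_) _
    obtain ⟨k, -, hk⟩ := mem_iUnion₂.1 hc
    exact h.sub k hk
  · intro i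
    refine squeeze_zero (fun n => n2_nonneg _) (fun n => ?_) (fl i)
    have h1 : MemLp (fun z => |ff (F.G univ n) i z - f1 i z|) 2 (volume : Measure X) :=
      ((hf0 n i).sub (fm i)).norm
    refine (n2_mono h1 fun z => ?_).trans (le_of_eq (n2_abs _))
    rw [h.ff_ind A n i z]
    by_cases hz : z ∈ F.W A
    · rw [Set.indicator_of_mem hz, Set.indicator_of_mem hz, hfL]
      have hzu : z ∈ F.W univ := by
        obtain ⟨k, -, hk⟩ := mem_iUnion₂.1 hz
        exact mem_iUnion₂.2 ⟨k, mem_univ k, hk⟩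
      simp only [Set.indicator_of_mem hzu]
      exact le_rfl
    · rw [Set.indicator_of_notMem hz, Set.indicator_of_notMem hz, sub_zero, abs_zero]
      exact abs_nonneg _
  · intro i
    refine squeeze_zero (fun n => n2_nonneg _) (fun n => h.G_e hr A n i) ?_
    have := hr.βs.tendsto_atTop_zero.const_mul (∑' k, C k)
    simpa using this
  · intro k hk z hz i
    refine le_of_tendsto ((ul i z).sub_const _).abs ?_
    filter_upwards [hev k] with n hn
    rw [h.u_at (mem_idx.2 ⟨hn, hk⟩) hz]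
    exact hr.ud k n i z
  · intro k hk z hz i
    refine le_of_tendsto ((tl i z).sub_const _).abs ?_
    filter_upwards [hev k] with n hn
    rw [h.Du_at (mem_idx.2 ⟨hn, hk⟩) hz]
    exact hr.uxd k n i et z (Or.inl rfl)
  · intro k hk z hz i j
    refine le_of_tendsto ((xl i j z).sub_const _).abs ?_
    filter_upwards [hev k] with n hn
    rw [h.Du_at (mem_idx.2 ⟨hn, hk⟩) hz]
    exact hr.uxd k n i (ev j) z (Or.inr ⟨j, rfl⟩)
  · intro k hk z hz i
    refine le_of_tendsto (ul i z).abs ?_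
    filter_upwards [hev k] with n hn
    rw [h.u_at (mem_idx.2 ⟨hn, hk⟩) hz]
    exact hr.uc k n i z
  · intro k hk z hz i
    refine le_of_tendsto (tl i z).abs ?_
    filter_upwards [hev k] with n hn
    rw [h.Du_at (mem_idx.2 ⟨hn, hk⟩) hz]
    exact hr.uxc k n i et z (Or.inl rfl)
  · intro k hk z hz i j
    refine le_of_tendsto (xl i j z).abs ?_
    filter_upwards [hev k] with n hn
    rw [h.Du_at (mem_idx.2 ⟨hn, hk⟩) hz]
    exact hr.uxc k n i (ev j) z (Or.inr ⟨j, rfl⟩)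
  · intro z hz i
    have hn : ∀ n, ∀ k ∈ idx A n, z ∉ F.K k := fun n k hk hc =>
      hz (mem_iUnion₂.2 ⟨k, (mem_idx.1 hk).2, hc⟩)
    refine ⟨?_, ?_, fun j => ?_⟩
    · refine tendsto_nhds_unique (ul i z) ?_
      simp only [fun n => h.u_off (hn n) i]
      exact tendsto_const_nhds
    · refine tendsto_nhds_unique (tl i z) ?_
      simp only [fun n => h.Du_off (hn n) i et]
      exact tendsto_const_nhds
    · refine tendsto_nhds_unique (xl i j z) ?_
      simp only [fun n => h.Du_off (hn n) i (ev j)]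
      exact tendsto_const_nhds
  · intro z hz hoff
    refine tendsto_nhds_unique (hRl z hz) ?_
    have h1 : ∀ n, (F.G A n).R2 z = (F.G ∅ n).r z.2 := fun n =>
      h.R2_off fun k hk => hoff k (mem_idx.1 hk).2
    simp only [h1]
    exact rl z.2

end Fam.Ok

end

end Pool.Agent.Y616.MH
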