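import Pool.Agent.Y616.MH.Build

/-!
# Continuum many weak solutions close to a given field
-/

set_option autoImplicit false

open scoped ContDiff ENNReal
open Set MeasureTheory Filter Topology Pool.Agent.H729R2 Pool.Agent.H729R2.MHD

namespace Pool.Agent.Y616.MH

noncomputable section

/-- the indices of the moving parts -/
def sh (A : Set ℕ) : Set ℕ := {k | k = 0 ∨ ∃ j ∈ A, k = j + 1}

lemma zero_mem_sh (A : Set ℕ) : 0 ∈ sh A := Or.inl rfl

lemma succ_mem_sh {A : Set ℕ} {k : ℕ} : k + 1 ∈ sh A ↔ k ∈ A := by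
  constructor
  · rintro (h | ⟨j, hj, h⟩)
    · omega
    · have : k = j := by omega
      rwa [this]
  · intro h
    exact Or.inr ⟨k, h, rfl⟩

variable {F : Fam} {K₀ : Set X} {b T : ℝ} {C c d : ℕ → ℝ} {rL : E3 → ℝ} {fL : Fin 3 → X → ℝ}
  {A B : Set ℕ} {uL tL : Fin 3 → X → ℝ} {xL : Fin 3 → Fin 3 → X → ℝ} {RL : X → ℝ}
  {uM tM : Fin 3 → X → ℝ} {xM : Fin 3 → Fin 3 → X → ℝ} {RM : X → ℝ}

/-- closeness -/
lemma close (h : F.Ok K₀ b) {v : Fin 3 → X → ℝ} (hv0 : (F.S 0 0).u = v)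
    (hvK : ∀ i, tsupport (v i) ⊆ F.K 0) {ε : ℝ} (hε : 0 < ε) (hd : d 0 ≤ ε)
    (hc : ∀ k, c (k + 1) ≤ ε) (hL : LimA F K₀ T b c d rL fL (sh A) uL tL xL RL) (z : X) :
    (∀ i, |uL i z - v i z| ≤ ε) ∧ (∀ i, |tL i z - D et (v i) z| ≤ ε) ∧
      ∀ i j, |xL i j z - D (ev j) (v i) z| ≤ ε := by
  have hvz : z ∉ F.K 0 → (∀ i, v i z = 0) ∧ ∀ i w, D w (v i) z = 0 := fun hz =>
    ⟨fun i => image_eq_zero_of_notMem_tsupport fun h' => hz (hvK i h'),
      fun i w => D_eq_zero_of_notMem _ fun h' => hz (hvK i h')⟩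
  by_cases hz : z ∈ F.W (sh A)
  · obtain ⟨k, hk, hzk⟩ := mem_iUnion₂.1 hz
    rcases k with _ | k
    · subst hv0
      exact ⟨fun i => (hL.ud 0 hk z hzk i).trans hd, fun i => (hL.td 0 hk z hzk i).trans hd,
        fun i j => (hL.xd 0 hk z hzk i j).trans hd⟩
    · have hz0 : z ∉ F.K 0 := fun hc => by
        have := h.eq_of_mem ⟨z, hc, rfl⟩ ⟨z, hzk, rfl⟩
        omega
      obtain ⟨e1, e2⟩ := hvz hz0
      refine ⟨fun i => ?_, fun i => ?_, fun i j => ?_⟩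
      · rw [e1, sub_zero]
        exact (hL.uc _ hk z hzk i).trans (hc k)
      · rw [e2, sub_zero]
        exact (hL.tcl _ hk z hzk i).trans (hc k)
      · rw [e2, sub_zero]
        exact (hL.xcl _ hk z hzk i j).trans (hc k)
  · have hz0 : z ∉ F.K 0 := fun hc => hz (mem_iUnion₂.2 ⟨0, zero_mem_sh A, hc⟩)
    obtain ⟨e1, e2⟩ := hvz hz0
    have h3 := hL.off z hz
    refine ⟨fun i => ?_, fun i => ?_, fun i j => ?_⟩
    · rw [e1, (h3 i).1, sub_zero, abs_zero]; exact hε.le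
    · rw [e2, (h3 i).2.1, sub_zero, abs_zero]; exact hε.le
    · rw [e2, (h3 i).2.2 j, sub_zero, abs_zero]; exact hε.le

/-- different index sets give different solutions -/
lemma distinct {Ω : Set E3} (hΩ : IsOpen Ω) (h : F.Ok K₀ b) (hKΩ : K₀ ⊆ Cyl Ω T)
    (hL : LimA F K₀ T b c d rL fL (sh A) uL tL xL RL)
    (hM : LimA F K₀ T b c d rL fL (sh B) uM tM xM RM) {k : ℕ} (hkA : k ∈ A) (hkB : k ∉ B)
    (hne : ∃ z ∈ F.K (k + 1), ∃ i, d (k + 1) < |(F.S (k + 1) 0).u i z|) :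
    ¬ ∀ᵐ z ∂(volume.restrict (Cyl Ω T)),
      (vec fun i => uL i (z.1, z.2)) = vec fun i => uM i (z.1, z.2) := by
  obtain ⟨z, hz, i, hi⟩ := hne
  have hkA' : k + 1 ∈ sh A := succ_mem_sh.2 hkA
  have hkB' : k + 1 ∉ sh B := fun hc => hkB (succ_mem_sh.1 hc)
  have h1 : uL i z ≠ 0 := by
    intro h0
    have h2 := hL.ud (k + 1) hkA' z hz i
    rw [h0, zero_sub, abs_neg] at h2
    linarith
  have h2 : uM i z = 0 := by
    refine (hM.off z (fun hc => ?_) i).1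
    obtain ⟨j, hj, hjz⟩ := mem_iUnion₂.1 hc
    have := h.eq_of_mem ⟨z, hjz, rfl⟩ ⟨z, hz, rfl⟩
    rw [this] at hj
    exact hkB' hj
  intro hae
  have hUo : MeasurableSet (Cyl Ω T) := cyl_meas hΩ T
  set V : Set X := {z | uL i z ≠ uM i z} with hV
  have hVo : IsOpen V := isOpen_ne_fun (hL.lims.uc i) (hM.lims.uc i)
  have hVpos : 0 < volume V := hVo.measure_pos volume ⟨z, by
    change uL i z ≠ uM i z
    rw [h2]; exact h1⟩
  have hVK : V ⊆ Cyl Ω T := fun y hy => by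
    by_contra hcon
    have hy' : y ∉ K₀ := fun h' => hcon (hKΩ h')
    exact hy (by rw [hL.lims.u_zero h.K₀c i hy', hM.lims.u_zero h.K₀c i hy'])
  rw [ae_restrict_iff' hUo, ae_iff] at hae
  have hsub : V ⊆ {z : X | ¬ (z ∈ Cyl Ω T → (vec fun i => uL i (z.1, z.2)) =
      vec fun i => uM i (z.1, z.2))} := by
    intro y hy hcon
    have h3 := hcon (hVK hy)
    exact hy (congrArg (fun v : E3 => v i) h3)
  exact absurd (measure_mono_null hsub hae) hVpos.ne'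

/-- the main theorem -/
theorem main {Ω : Set R3} (hΩ : IsOpen Ω) (hbd : Bornology.IsBounded Ω) (hne : Ω.Nonempty)
    {T : ℝ} (hT : 0 < T) {σ : ℝ → ℝ} (hσ : Coeff σ) {v : ℝ × R3 → R3} (hv : ContDiff ℝ ∞ v)
    (hvc : HasCompactSupport v) (hvs : tsupport v ⊆ Cyl Ω T)
    (hdiv : ∀ z, ∑ i, dx i (fun y => v y i) z = 0) {ε : ℝ} (hε : 0 < ε) :
    ∃ (ρ₀ : R3 → ℝ) (f : ℝ → R3 → R3) (ρ : Set ℕ → ℝ → R3 → ℝ) (u : Set ℕ → ℝ → R3 → R3),
      Continuous ρ₀ ∧ (∀ x, |ρ₀ x - 1| ≤ ε) ∧ IsData Ω T (fun _ => 1) σ ρ₀ 0 0 f ∧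
      WeakSol Ω T (fun _ => 1) σ ρ₀ 0 0 f (fun _ => ρ₀) 0 0 ∧
      (∀ A, WeakSol Ω T (fun _ => 1) σ ρ₀ 0 0 f (ρ A) (u A) 0 ∧
        Continuous (fun z : ℝ × R3 => ρ A z.1 z.2) ∧
        ContDiff ℝ 1 (fun z : ℝ × R3 => u A z.1 z.2) ∧
        HasCompactSupport (fun z : ℝ × R3 => u A z.1 z.2) ∧
        tsupport (fun z : ℝ × R3 => u A z.1 z.2) ⊆ Cyl Ω T ∧
        ∀ z : ℝ × R3, ‖u A z.1 z.2 - v z‖ ≤ ε ∧
          ‖fderiv ℝ (fun z : ℝ × R3 => u A z.1 z.2 - v z) z‖ ≤ ε) ∧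
      ∀ A B, A ≠ B → ¬ ∀ᵐ z ∂(volume.restrict (Cyl Ω T)), u A z.1 z.2 = u B z.1 z.2 := by
  set v' : Fin 3 → X → ℝ := fun i z => v z i with hv'
  have hvi : ∀ i, ContDiff ℝ ∞ (v' i) := contDiff_euclidean.1 hv
  have hts : ∀ i, tsupport (v' i) ⊆ tsupport v := fun i => closure_mono fun z hz h0 => hz (by
    simp only [hv', h0]; rfl)
  have hvci : ∀ i, HasCompactSupport (v' i) := fun i =>
    HasCompactSupport.of_support_subset_isCompact hvc (subset_closure.trans (hts i))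
  set e' : ℝ := ε / 8 with he'
  have he0 : 0 < e' := by positivity
  set b : ℝ := min (ε / 2) (1 / 2) with hb
  have hb0 : 0 < b := lt_min (by positivity) (by norm_num)
  have hb1 : b ≤ 1 / 2 := min_le_right _ _
  have hb2 : b ≤ ε / 2 := min_le_left _ _
  obtain ⟨F, K₀, C, c, d, h, hKΩ, hr, hv0, hvK, hd, hc, hnz⟩ :=
    exists_family hΩ hbd hne hT hvi hvci (fun i => (hts i).trans hvs) hdiv he0 hb0 hb1
  obtain ⟨rL, fL, fm, fz, hA⟩ := h.exists_limits hr hT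
  choose uL tL xL RL hL using hA
  have hlu := (hL univ).lims
  have hr0 := fun x => hlu.rpos hb1 x
  have hrb : ∀ x, 1 / 2 ≤ 1 / rL x ∧ 1 / rL x ≤ 2 := by
    intro x
    have h1 := abs_le.1 (hlu.rb x)
    constructor
    · rw [le_div_iff₀ (hr0 x)]; linarith [h1.2]
    · rw [div_le_iff₀ (hr0 x)]; linarith [h1.1]
  have hδb : ∀ x, |1 / rL x - 1| ≤ ε := by
    intro x
    have h1 := hlu.rb x
    have h2 : 1 / rL x - 1 = -((rL x - 1) * (1 / rL x)) := by
      have := (hr0 x).ne'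
      field_simp
      ring
    rw [h2, abs_neg, abs_mul, abs_of_nonneg (by linarith [(hrb x).1] : 0 ≤ 1 / rL x)]
    calc |rL x - 1| * (1 / rL x) ≤ b * 2 :=
          mul_le_mul h1 (hrb x).2 (by linarith [(hrb x).1]) hb0.le
      _ ≤ ε := by linarith
  have hρc := hlu.P1c hb1
  have hf : MemLp (fun z : X => vec fun i => fL i (z.1, z.2)) 2 (volume.restrict (Cyl Ω T)) :=
    (memLp_vec fm).restrict _
  refine ⟨fun x => 1 / rL x, fun t x => vec fun i => fL i (t, x),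
    fun A t x => 1 / RL (sh A) (t, x), fun A t x => vec fun i => uL (sh A) i (t, x), hρc, hδb,
    ⟨coeff_one, hσ, ⟨hρc.aestronglyMeasurable, 1 / 2, 2, by norm_num,
      Eventually.of_forall fun x => hrb x⟩, zero_inH Ω, zero_inH Ω, hf⟩,
    weakSol_rest hΩ hbd h hKΩ σ fz (hL univ), fun A => ?_, fun A B hAB => ?_⟩
  · have hl := (hL (sh A)).lims
    have hcl := close h hv0 hvK he0 hd hc (hL (sh A))
    have hz0 : ∀ z, z ∉ K₀ → (vec fun i => uL (sh A) i z) = 0 := by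
      intro z hz
      ext i
      exact hl.u_zero h.K₀c i hz
    refine ⟨weakSolA hΩ hbd hT h hKΩ σ fm fz (hL (sh A)) (hL (sh A)ᶜ), hl.P2c hb1,
      contDiff_vec fun i => c1_lim h (hL (sh A)) i,
      HasCompactSupport.intro h.K₀c hz0, ?_, fun z => ⟨?_, ?_⟩⟩
    · refine subset_trans (closure_minimal (fun z hz => ?_) h.K₀c.isClosed) hKΩ
      by_contra hcon
      exact hz (hz0 z hcon)
    · have e1 : (vec fun i => uL (sh A) i (z.1, z.2)) - v z =
          vec fun i => uL (sh A) i z - v' i z := by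
        ext i
        simp [hv']
      rw [e1]
      refine (norm_vec_le (c := e') fun i => (hcl z).1 i).trans ?_
      linarith
    · have e1 : (fun z : ℝ × R3 => (vec fun i => uL (sh A) i (z.1, z.2)) - v z) =
          fun z => vec fun i => uL (sh A) i z - v' i z := by
        funext z
        ext i
        simp [hv']
      rw [e1]
      have h1 : ∀ i, HasFDerivAt (fun z => uL (sh A) i z - v' i z)
          (lf (tL (sh A) i z - D et (v' i) z) (fun j => xL (sh A) i j z - D (ev j) (v' i) z)) z := by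
        intro i
        rw [← lf_sub, ← fderiv_eq]
        exact (hasFDeriv_lim h (hL (sh A)) i z).sub ((smooth_diff (hvi i)) z).hasFDerivAt
      refine (norm_fderiv_vec_le h1 (a := 4 * e') fun i => ?_).trans (by linarith)
      exact norm_lf_le he0.le ((hcl z).2.1 i) fun j => (hcl z).2.2 i j
  · by_cases hk : ∃ k, k ∈ A ∧ k ∉ B
    · obtain ⟨k, h1, h2⟩ := hk
      exact distinct hΩ h hKΩ (hL (sh A)) (hL (sh B)) h1 h2 (hnz k)
    · push Not at hk
      obtain ⟨k, h1, h2⟩ : ∃ k, k ∈ B ∧ k ∉ A := by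
        by_contra hcon
        push Not at hcon
        exact hAB (Set.Subset.antisymm hk hcon)
      intro hae
      refine distinct hΩ h hKΩ (hL (sh B)) (hL (sh A)) h1 h2 (hnz k) ?_
      filter_upwards [hae] with z hz
      exact hz.symm

end

end Pool.Agent.Y616.MH
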