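import Pool.Agent.Y616.MH.Glue

/-!
# Rates of convergence of glued states
-/

set_option autoImplicit false

open scoped ContDiff
open Set MeasureTheory Filter Topology Pool.Agent.H729R2

namespace Pool.Agent.Y616.MH

noncomputable section

/-- rates -/
structure Fam.Rate (F : Fam) (T : ℝ) (β C c d : ℕ → ℝ) : Prop where
  βs : Summable β
  β0 : ∀ n, 0 ≤ β n
  Cs : Summable C
  C0 : ∀ n, 0 ≤ C n
  cs : Summable c
  c0 : ∀ n, 0 ≤ c n
  u : ∀ k n i z, |(F.S k (n + 1)).u i z - (F.S k n).u i z| ≤ β n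
  ux : ∀ k n i v z, (v = et ∨ ∃ j, v = ev j) →
    |D v ((F.S k (n + 1)).u i) z - D v ((F.S k n).u i) z| ≤ β n
  uc : ∀ k n i z, |(F.S k n).u i z| ≤ c k
  uxc : ∀ k n i v z, (v = et ∨ ∃ j, v = ev j) → |D v ((F.S k n).u i) z| ≤ c k
  ud : ∀ k n i z, |(F.S k n).u i z - (F.S k 0).u i z| ≤ d k
  uxd : ∀ k n i v z, (v = et ∨ ∃ j, v = ev j) →
    |D v ((F.S k n).u i) z - D v ((F.S k 0).u i) z| ≤ d k
  r : ∀ k n x, |(F.S k (n + 1)).r x - (F.S k n).r x| ≤ β n
  rc : ∀ k n x, |(F.S k n).r x - 1| ≤ c k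
  R2 : ∀ k n, ∀ z ∈ slab T, |(F.S k (n + 1)).R2 z - (F.S k n).R2 z| ≤ β n
  f : ∀ k n i, n2 (fun z => ff (F.S k (n + 1)) i z - ff (F.S k n) i z) ≤ C k * β n
  fc : ∀ k n i, n2 (ff (F.S k n) i) ≤ c k
  e : ∀ k n i, n2 ((F.S k n).e i) ≤ C k * β n

lemma n2_abs (f : X → ℝ) : n2 (fun z => |f z|) = n2 f := by
  unfold n2
  congr 1
  exact eLpNorm_congr_norm_ae (Eventually.of_forall fun z => by simp)

namespace Fam.Ok

variable {F : Fam} {K₀ : Set X} {b T : ℝ} (h : F.Ok K₀ b) {β C c d : ℕ → ℝ}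
  (hr : F.Rate T β C c d)

include h in
/-- differences of glued functions -/
lemma diff_le {A : Set ℕ} {n : ℕ} {Γ : ℕ → X → ℝ} {g : ℕ → ℕ → X → ℝ}
    (hat : ∀ n k, k ∈ idx A n → ∀ z ∈ F.K k, Γ n z = g k n z)
    (hoff : ∀ n z, (∀ k ∈ idx A n, z ∉ F.K k) → Γ n z = 0)
    {x y : ℝ} (hx : 0 ≤ x) (hy : 0 ≤ y)
    (h1 : ∀ k z, |g k (n + 1) z - g k n z| ≤ x) (h2 : ∀ z, |g (n + 1) (n + 1) z| ≤ y) (z : X) :
    |Γ (n + 1) z - Γ n z| ≤ x + y := by
  by_cases hz : ∃ k ∈ idx A (n + 1), z ∈ F.K k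
  · obtain ⟨k, hk, hzk⟩ := hz
    rw [hat (n + 1) k hk z hzk]
    have hk1 := mem_idx.1 hk
    rcases Nat.lt_or_ge k (n + 1) with hlt | hge
    · rw [hat n k (mem_idx.2 ⟨by omega, hk1.2⟩) z hzk]
      linarith [h1 k z]
    · obtain rfl : k = n + 1 := by omega
      rw [hoff n z fun j hj hc => ?_]
      · rw [sub_zero]
        linarith [h2 z]
      · have := h.eq_of_mem ⟨z, hc, rfl⟩ ⟨z, hzk, rfl⟩
        have h3 := (mem_idx.1 hj).1
        omega
  · push Not at hz
    rw [hoff _ z hz, hoff n z fun j hj => hz j (mem_idx.2 ⟨by have := (mem_idx.1 hj).1; omega,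
      (mem_idx.1 hj).2⟩)]
    simp
    positivity

include h hr

lemma G_u (A : Set ℕ) (n : ℕ) (i : Fin 3) (z : X) :
    |(F.G A (n + 1)).u i z - (F.G A n).u i z| ≤ β n + c (n + 1) :=
  h.diff_le (A := A) (Γ := fun n => (F.G A n).u i) (g := fun k n => (F.S k n).u i)
    (fun _ _ hk _ hz => h.u_at hk hz i) (fun _ _ hz => h.u_off hz i) (hr.β0 n) (hr.c0 _)
    (fun k z => hr.u k n i z) (fun z => hr.uc _ _ i z) z

lemma G_ux (A : Set ℕ) (n : ℕ) (i : Fin 3) {v : X} (hv : v = et ∨ ∃ j, v = ev j) (z : X) :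
    |D v ((F.G A (n + 1)).u i) z - D v ((F.G A n).u i) z| ≤ β n + c (n + 1) :=
  h.diff_le (A := A) (Γ := fun n => D v ((F.G A n).u i)) (g := fun k n => D v ((F.S k n).u i))
    (fun _ _ hk _ hz => h.Du_at hk hz i v) (fun _ _ hz => h.Du_off hz i v) (hr.β0 n) (hr.c0 _)
    (fun k z => hr.ux k n i v z hv) (fun z => hr.uxc _ _ i v z hv) z

lemma G_rd (n : ℕ) (x : E3) :
    |(F.G ∅ (n + 1)).r x - (F.G ∅ n).r x| ≤ β n + c (n + 1) := by
  have e : (F.G ∅ (n + 1)).r x - (F.G ∅ n).r x =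
      (∑ k ∈ Finset.range (n + 1), F.χ k x * ((F.S k (n + 1)).r x - (F.S k n).r x))
        + F.χ (n + 1) x * ((F.S (n + 1) (n + 1)).r x - 1) := by
    simp only [Fam.G]
    rw [Finset.sum_range_succ]
    have e2 : ∑ k ∈ Finset.range (n + 1), F.χ k x * ((F.S k (n + 1)).r x - (F.S k n).r x) =
        ∑ k ∈ Finset.range (n + 1), F.χ k x * ((F.S k (n + 1)).r x - 1)
        - ∑ k ∈ Finset.range (n + 1), F.χ k x * ((F.S k n).r x - 1) := by
      rw [← Finset.sum_sub_distrib]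
      exact Finset.sum_congr rfl fun k _ => by ring
    rw [e2]
    ring
  rw [e]
  refine (abs_add_le _ _).trans (add_le_add ?_ ?_)
  · by_cases hx : ∃ k ∈ Finset.range (n + 1), F.χ k x ≠ 0
    · obtain ⟨k, hk, hne⟩ := hx
      rw [Finset.sum_eq_single_of_mem k hk fun j _ hjk => by
        rw [h.χd k j x (Ne.symm hjk) hne, zero_mul]]
      rw [abs_mul, abs_of_nonneg (h.χ0 k x)]
      calc F.χ k x * |(F.S k (n + 1)).r x - (F.S k n).r x| ≤ 1 * β n :=
            mul_le_mul (h.χle k x) (hr.r k n x) (abs_nonneg _) zero_le_one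
        _ = β n := one_mul _
    · push Not at hx
      rw [Finset.sum_eq_zero fun k hk => by rw [hx k hk, zero_mul], abs_zero]
      exact hr.β0 n
  · rw [abs_mul, abs_of_nonneg (h.χ0 _ x)]
    calc F.χ (n + 1) x * |(F.S (n + 1) (n + 1)).r x - 1| ≤ 1 * c (n + 1) :=
          mul_le_mul (h.χle _ x) (hr.rc _ _ x) (abs_nonneg _) zero_le_one
      _ = c (n + 1) := one_mul _

lemma G_R2 (A : Set ℕ) (n : ℕ) {z : X} (hzT : z ∈ slab T) :
    |(F.G A (n + 1)).R2 z - (F.G A n).R2 z| ≤ β n + c (n + 1) := by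
  have hβ := hr.β0 n
  have hc := hr.c0 (n + 1)
  by_cases hz : ∃ k ∈ idx A (n + 1), z.2 ∈ Prod.snd '' F.K k
  · obtain ⟨k, hk, hzk⟩ := hz
    rw [h.R2_at hk hzk]
    have hk1 := mem_idx.1 hk
    rcases Nat.lt_or_ge k (n + 1) with hlt | hge
    · rw [h.R2_at (mem_idx.2 ⟨by omega, hk1.2⟩) hzk]
      linarith [hr.R2 k n z hzT]
    · obtain rfl : k = n + 1 := by omega
      rw [h.R2_off fun j hj hc => ?_]
      · have h1 : (F.G A n).r z.2 = 1 := by
          obtain ⟨z', hz', he⟩ := hzk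
          have h2 := h.χ1 _ z' hz'
          rw [he] at h2
          change 1 + ∑ j ∈ Finset.range (n + 1), F.χ j z.2 * ((F.S j n).r z.2 - 1) = 1
          rw [Finset.sum_eq_zero fun j hj => by
            have hj' := Finset.mem_range.1 hj
            rw [h.χd (n + 1) j z.2 (by omega) (by rw [h2]; exact one_ne_zero), zero_mul]]
          ring
        rw [h1]
        have := hr.rc (n + 1) (n + 1) (vec fun i => lab (F.S (n + 1) (n + 1)).u i z)
        unfold St.R2
        linarith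
      · have := h.eq_of_mem hc hzk
        have h3 := (mem_idx.1 hj).1
        omega
  · push Not at hz
    rw [h.R2_off hz, h.R2_off fun j hj => hz j (mem_idx.2 ⟨by have := (mem_idx.1 hj).1; omega,
      (mem_idx.1 hj).2⟩)]
    exact h.G_rd hr n z.2

omit hr in
lemma ff_memLp (k n : ℕ) (i : Fin 3) : MemLp (ff (F.S k n) i) 2 (volume : Measure X) :=
  memLp_cc (((h.good k n).R1s.mul ((h.good k n).gps i)).continuous)
    (HasCompactSupport.intro (h.comp k) fun z hz => by simp [ff, (h.good k n).gp_zero hz])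

omit hr in
lemma e_memLp (k n : ℕ) (i : Fin 3) : MemLp ((F.S k n).e i) 2 (volume : Measure X) :=
  memLp_cc ((h.good k n).es (h.comp k) i).continuous
    (HasCompactSupport.intro (h.comp k) fun z hz => (h.good k n).e_zero hz i)

omit hr in
lemma ff_zero {k n : ℕ} {z : X} (hz : z ∉ F.K k) (i : Fin 3) : ff (F.S k n) i z = 0 := by
  simp [ff, (h.good k n).gp_zero hz]

omit h hr in
lemma n2_sum_abs (s : Finset ℕ) {g : ℕ → X → ℝ} (hg : ∀ k ∈ s, MemLp (g k) 2 (volume : Measure X))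
    {f : X → ℝ} (hf : ∀ z, |f z| ≤ ∑ k ∈ s, |g k z|) : n2 f ≤ ∑ k ∈ s, n2 (g k) := by
  obtain ⟨h1, h2⟩ := n2_lin s (c := fun _ => 1) (fun _ _ => zero_le_one)
    (g := fun k z => |g k z|) (fun k hk => (hg k hk).norm)
  simp only [one_mul] at h1 h2
  refine (n2_mono h1 hf).trans (h2.trans (le_of_eq ?_))
  exact Finset.sum_congr rfl fun k _ => n2_abs _

lemma sum_C_le (s : Finset ℕ) {x : ℝ} (hx : 0 ≤ x) : ∑ k ∈ s, C k * x ≤ (∑' k, C k) * x := by
  rw [← Finset.sum_mul]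
  exact mul_le_mul_of_nonneg_right (hr.Cs.sum_le_tsum s fun k _ => hr.C0 k) hx

lemma G_e (A : Set ℕ) (n : ℕ) (i : Fin 3) : n2 ((F.G A n).e i) ≤ (∑' k, C k) * β n := by
  refine (n2_sum_abs (idx A n) (g := fun k => (F.S k n).e i) (fun k _ => h.e_memLp k n i)
    fun z => ?_).trans ((Finset.sum_le_sum fun k _ => hr.e k n i).trans
      (h.sum_C_le hr _ (hr.β0 n)))
  by_cases hz : ∃ k ∈ idx A n, z ∈ F.K k
  · obtain ⟨k, hk, hzk⟩ := hz
    rw [h.e_at hk hzk]
    exact Finset.single_le_sum (f := fun k => |(F.S k n).e i z|) (fun k _ => abs_nonneg _) hk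
  · push Not at hz
    rw [h.e_off hz, abs_zero]
    exact Finset.sum_nonneg fun k _ => abs_nonneg _

lemma G_f (A : Set ℕ) (n : ℕ) (i : Fin 3) :
    n2 (fun z => ff (F.G A (n + 1)) i z - ff (F.G A n) i z) ≤
      (∑' k, C k) * β n + c (n + 1) := by
  set g : ℕ → X → ℝ := fun k z =>
    if k ≤ n then ff (F.S k (n + 1)) i z - ff (F.S k n) i z else ff (F.S k k) i z with hg
  have hgm : ∀ k, MemLp (g k) 2 (volume : Measure X) := by
    intro k
    by_cases hk : k ≤ n
    · have : g k = fun z => ff (F.S k (n + 1)) i z - ff (F.S k n) i z := by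
        funext z; simp only [hg, if_pos hk]
      rw [this]
      exact (h.ff_memLp k (n + 1) i).sub (h.ff_memLp k n i)
    · have : g k = ff (F.S k k) i := by
        funext z; simp only [hg, if_neg hk]
      rw [this]
      exact h.ff_memLp k k i
  have key : ∀ z, |ff (F.G A (n + 1)) i z - ff (F.G A n) i z| ≤
      ∑ k ∈ Finset.range (n + 2), |g k z| := by
    intro z
    by_cases hz : ∃ k ∈ idx A (n + 1), z ∈ F.K k
    · obtain ⟨k, hk, hzk⟩ := hz
      have hk1 := mem_idx.1 hk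
      have hle : |g k z| ≤ ∑ k ∈ Finset.range (n + 2), |g k z| :=
        Finset.single_le_sum (f := fun k => |g k z|) (fun k _ => abs_nonneg _)
          (Finset.mem_range.2 (by omega))
      refine le_trans (le_of_eq ?_) hle
      rw [h.ff_at hk hzk]
      rcases Nat.lt_or_ge k (n + 1) with hlt | hge
      · rw [h.ff_at (mem_idx.2 ⟨by omega, hk1.2⟩) hzk]
        simp only [hg, if_pos (by omega : k ≤ n)]
      · obtain rfl : k = n + 1 := by omega
        rw [h.ff_off fun j hj hc => ?_]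
        · simp only [hg, if_neg (by omega : ¬ n + 1 ≤ n), sub_zero]
        · have := h.eq_of_mem ⟨z, hc, rfl⟩ ⟨z, hzk, rfl⟩
          have h3 := (mem_idx.1 hj).1
          omega
    · push Not at hz
      rw [h.ff_off hz, h.ff_off fun j hj => hz j (mem_idx.2 ⟨by have := (mem_idx.1 hj).1; omega,
        (mem_idx.1 hj).2⟩), sub_zero, abs_zero]
      exact Finset.sum_nonneg fun k _ => abs_nonneg _
  refine (n2_sum_abs _ (fun k _ => hgm k) key).trans ?_
  rw [Finset.sum_range_succ]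
  refine add_le_add ?_ ?_
  · refine le_trans (Finset.sum_le_sum (g := fun k => C k * β n) fun k hk => ?_)
      (h.sum_C_le hr _ (hr.β0 n))
    have hk' : k ≤ n := by have := Finset.mem_range.1 hk; omega
    have : g k = fun z => ff (F.S k (n + 1)) i z - ff (F.S k n) i z := by
      funext z; simp only [hg, if_pos hk']
    rw [this]
    exact hr.f k n i
  · have : g (n + 1) = ff (F.S (n + 1) (n + 1)) i := by
      funext z; simp only [hg, if_neg (by omega : ¬ n + 1 ≤ n)]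
    rw [this]
    exact hr.fc _ _ i

end Fam.Ok

end

end Pool.Agent.Y616.MH
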