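import Pool.Agent.Y616.MH.Sol

/-!
# The limit velocities are continuously differentiable
-/

set_option autoImplicit false

open scoped ContDiff ENNReal
open Set MeasureTheory Filter Topology Pool.Agent.H729R2

namespace Pool.Agent.Y616.MH

noncomputable section

/-- the linear form with the given partial derivatives -/
def lf (t : ℝ) (x : Fin 3 → ℝ) : X →L[ℝ] ℝ :=
  t • ContinuousLinearMap.fst ℝ ℝ E3 +
    ∑ j, x j • ((EuclideanSpace.proj j : E3 →L[ℝ] ℝ).comp (ContinuousLinearMap.snd ℝ ℝ E3))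

lemma lf_apply (t : ℝ) (x : Fin 3 → ℝ) (w : X) : lf t x w = t * w.1 + ∑ j, x j * w.2 j := by
  simp [lf]

lemma fderiv_eq (F : X → ℝ) (z : X) :
    fderiv ℝ F z = lf (D et F z) (fun j => D (ev j) F z) := by
  refine ContinuousLinearMap.ext fun w => ?_
  have h1 : w = w.1 • et + (0, vec fun j => w.2 j) := by
    refine Prod.ext ?_ ?_
    · simp [et]
    · ext j
      simp [et]
  rw [lf_apply]
  conv_lhs => rw [h1]
  rw [map_add, map_smul, D_vec]
  have e1 : w.1 • (fderiv ℝ F z) et = D et F z * w.1 := by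
    rw [smul_eq_mul, mul_comm]
    rfl
  have e2 : ∑ j, w.2 j * D (ev j) F z = ∑ j, D (ev j) F z * w.2 j :=
    Finset.sum_congr rfl fun j _ => mul_comm (w.2 j) _
  rw [e1, e2]

lemma norm_lf_le {t : ℝ} {x : Fin 3 → ℝ} {a : ℝ} (ha : 0 ≤ a) (ht : |t| ≤ a) (hx : ∀ j, |x j| ≤ a) :
    ‖lf t x‖ ≤ 4 * a := by
  refine ContinuousLinearMap.opNorm_le_bound _ (by positivity) fun w => ?_
  rw [lf_apply, Real.norm_eq_abs]
  have h1 : |w.1| ≤ ‖w‖ := norm_fst_le w
  have h2 : ∀ j, |w.2 j| ≤ ‖w‖ := fun j => by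
    have := PiLp.norm_apply_le w.2 j
    exact this.trans (norm_snd_le w)
  calc |t * w.1 + ∑ j, x j * w.2 j| ≤ |t * w.1| + ∑ j, |x j * w.2 j| :=
        (abs_add_le _ _).trans (add_le_add le_rfl (Finset.abs_sum_le_sum_abs _ _))
    _ ≤ a * ‖w‖ + ∑ _j : Fin 3, a * ‖w‖ := by
        refine add_le_add ?_ (Finset.sum_le_sum fun j _ => ?_)
        · rw [abs_mul]
          exact mul_le_mul ht h1 (abs_nonneg _) ha
        · rw [abs_mul]
          exact mul_le_mul (hx j) (h2 j) (abs_nonneg _) ha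
    _ = 4 * a * ‖w‖ := by
        simp
        ring

lemma lf_sub (t t' : ℝ) (x x' : Fin 3 → ℝ) :
    lf t x - lf t' x' = lf (t - t') (fun j => x j - x' j) := by
  refine ContinuousLinearMap.ext fun w => ?_
  rw [ContinuousLinearMap.sub_apply, lf_apply, lf_apply, lf_apply]
  have : ∑ j, (x j - x' j) * w.2 j = ∑ j, x j * w.2 j - ∑ j, x' j * w.2 j := by
    rw [← Finset.sum_sub_distrib]
    exact Finset.sum_congr rfl fun j _ => by ring
  rw [this]
  ring

lemma lf_cont {t : X → ℝ} {x : Fin 3 → X → ℝ} (ht : Continuous t) (hx : ∀ j, Continuous (x j)) :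
    Continuous fun z => lf (t z) (fun j => x j z) := by
  unfold lf
  exact (ht.smul continuous_const).add (continuous_finsetSum _ fun j _ =>
    (hx j).smul continuous_const)

variable {F : Fam} {K₀ : Set X} {b T : ℝ} {c d : ℕ → ℝ} {rL : E3 → ℝ} {fL : Fin 3 → X → ℝ}
  {A : Set ℕ} {uL tL : Fin 3 → X → ℝ} {xL : Fin 3 → Fin 3 → X → ℝ} {RL : X → ℝ}

lemma hasFDeriv_lim (h : F.Ok K₀ b) (hL : LimA F K₀ T b c d rL fL A uL tL xL RL) (i : Fin 3)
    (z : X) : HasFDerivAt (uL i) (lf (tL i z) (fun j => xL i j z)) z := by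
  obtain ⟨a, ha0, ha⟩ := hL.tl
  obtain ⟨a', ha0', ha'⟩ := hL.lims.xl
  have hs := fun n => h.Gu_smooth A n i
  refine hasFDerivAt_of_tendstoUniformly (l := atTop) (f := fun n => (F.G A n).u i)
    (f' := fun n z => fderiv ℝ ((F.G A n).u i) z)
    (g' := fun z => lf (tL i z) (fun j => xL i j z)) ?_
    (fun n z => ((smooth_diff (hs n)) z).hasFDerivAt)
    (fun z => hL.lims.tendsto_u h.K₀c i z) z
  rw [Metric.tendstoUniformly_iff]
  intro ε hε
  have h1 : Tendsto (fun n => 4 * (|a n| + |a' n|)) atTop (𝓝 0) := by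
    have := (ha0.abs.add ha0'.abs).const_mul 4
    simpa using this
  filter_upwards [h1.eventually (gt_mem_nhds hε)] with n hn z
  rw [dist_comm, dist_eq_norm, fderiv_eq, lf_sub]
  refine lt_of_le_of_lt (norm_lf_le (a := |a n| + |a' n|) (by positivity) ?_ fun j => ?_) hn
  · exact (ha i n z).trans ((le_abs_self _).trans (by linarith [abs_nonneg (a' n)]))
  · exact (ha' i j n z).trans ((le_abs_self _).trans (by linarith [abs_nonneg (a n)]))

lemma c1_lim (h : F.Ok K₀ b) (hL : LimA F K₀ T b c d rL fL A uL tL xL RL) (i : Fin 3) :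
    ContDiff ℝ 1 (uL i) := by
  rw [contDiff_one_iff_hasFDerivAt]
  exact ⟨_, lf_cont (hL.tc i) (hL.lims.xc i), fun z => hasFDeriv_lim h hL i z⟩

/-- norm of a vector valued derivative -/
lemma norm_fderiv_vec_le {u : Fin 3 → X → ℝ} {z : X} {L : Fin 3 → X →L[ℝ] ℝ}
    (h : ∀ i, HasFDerivAt (u i) (L i) z) {a : ℝ} (ha : ∀ i, ‖L i‖ ≤ a) :
    ‖fderiv ℝ (fun z => vec fun i => u i z) z‖ ≤ 2 * a := by
  have ha0 : 0 ≤ a := (norm_nonneg _).trans (ha 0)
  have h1 : ∀ w : X, fderiv ℝ (fun z => vec fun i => u i z) z w = vec fun i => L i w := by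
    intro w
    have h2 : HasFDerivAt (fun z => vec fun i => u i z)
        ((PiLp.continuousLinearEquiv 2 ℝ (fun _ : Fin 3 => ℝ)).symm.toContinuousLinearMap.comp
          (ContinuousLinearMap.pi L)) z := by
      have h3 : HasFDerivAt (fun z => fun i => u i z) (ContinuousLinearMap.pi L) z :=
        hasFDerivAt_pi.2 h
      exact ((PiLp.continuousLinearEquiv 2 ℝ
        (fun _ : Fin 3 => ℝ)).symm.toContinuousLinearMap.hasFDerivAt).comp z h3
    rw [h2.fderiv]
    rfl
  refine ContinuousLinearMap.opNorm_le_bound _ (by positivity) fun w => ?_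
  rw [h1]
  refine (norm_vec_le (c := a * ‖w‖) fun i => ?_).trans (le_of_eq (by ring))
  exact ((L i).le_opNorm w).trans (mul_le_mul_of_nonneg_right (ha i) (norm_nonneg _))

end

end Pool.Agent.Y616.MH
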