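import Pool.Agent.Y616.MH.Reg

/-!
# The iteration with explicit constants
-/

set_option autoImplicit false

open scoped ContDiff ENNReal
open Set MeasureTheory Filter Topology Pool.Agent.H729R2

namespace Pool.Agent.Y616.MH

noncomputable section

/-- the rate -/
def bet (n : ℕ) : ℝ := (98 / 100 : ℝ) ^ n

lemma bet_pos (n : ℕ) : 0 < bet n := by unfold bet; positivity

lemma bet_summable : Summable bet := summable_geometric_of_lt_one (by norm_num) (by norm_num)

/-- rates for one sequence of states -/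
structure SeqRate (T : ℝ) (K : Set X) (S : ℕ → St) (b C c d : ℝ) : Prop where
  good : ∀ n, Good K (S n)
  u : ∀ n i z, |(S (n + 1)).u i z - (S n).u i z| ≤ bet n
  ux : ∀ n i v z, (v = et ∨ ∃ j, v = ev j) →
    |D v ((S (n + 1)).u i) z - D v ((S n).u i) z| ≤ bet n
  uc : ∀ n i z, |(S n).u i z| ≤ c
  uxc : ∀ n i v z, (v = et ∨ ∃ j, v = ev j) → |D v ((S n).u i) z| ≤ c
  ud : ∀ n i z, |(S n).u i z - (S 0).u i z| ≤ d
  uxd : ∀ n i v z, (v = et ∨ ∃ j, v = ev j) →
    |D v ((S n).u i) z - D v ((S 0).u i) z| ≤ d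
  r : ∀ n x, |(S (n + 1)).r x - (S n).r x| ≤ bet n
  rc : ∀ n x, |(S n).r x - 1| ≤ c
  R2 : ∀ n, ∀ z ∈ slab T, |(S (n + 1)).R2 z - (S n).R2 z| ≤ bet n
  f : ∀ n i, n2 (fun z => ff (S (n + 1)) i z - ff (S n) i z) ≤ C * bet n
  fc : ∀ n i, n2 (ff (S n) i) ≤ c
  e : ∀ n i, n2 ((S n).e i) ≤ C * bet n
  r1 : ∀ n x, |(S n).r x - 1| ≤ b

lemma iterate' {T₀ : ℝ} {K₀ : Set X} (hK : IsCompact K₀) (hKT : K₀ ⊆ slab T₀) {S₀ : St}
    (hg : Good K₀ S₀) (hr : ∀ x, S₀.r x = 1) {es d : ℝ}
    (hes : 0 < es) (hes1 : es ≤ 1 / 1000000) (hd : 0 < d) {D₀ : ℝ}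
    (hD₀ : D₀ = 100 * d + ee S₀ + mm S₀) :
    ∃ S : ℕ → St, S 0 = S₀ ∧ (∀ n, Inv K₀ es D₀ n (S n)) ∧
      ∀ n, Rel T₀ es D₀ d n (S n) (S (n + 1)) := by
  have e0 := ee_nonneg S₀
  have m0 := mm_nonneg S₀
  have hD : 0 < D₀ := by rw [hD₀]; positivity
  have key := fun n S => inv_step (D₀ := D₀) (d := d) hK hKT hes hes1 hd (by linarith) n S
  choose! nx h1 h2 using key
  set S : ℕ → St := fun n => Nat.rec S₀ (fun n S => nx n S) n with hS
  have hI : ∀ n, Inv K₀ es D₀ n (S n) := by
    intro n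
    induction n with
    | zero =>
      refine ⟨hg, ?_, ?_, ?_⟩
      · simp only [pow_zero, mul_one]
        change ee S₀ ≤ D₀
        linarith
      · simp only [pow_zero]
        change mm S₀ ≤ _
        have : D₀ ≤ 500 * D₀ / es := by
          rw [le_div_iff₀ hes]
          nlinarith
        linarith
      · intro x
        have : (S 0).r x = 1 := hr x
        rw [this]
        simp
    | succ n ih => exact h1 n (S n) ih
  exact ⟨S, rfl, hI, fun n => h2 n (S n) (hI n)⟩

lemma half_le_bet (n : ℕ) : (1 / 2 : ℝ) ^ (n + 1) ≤ bet n / 2 := by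
  unfold bet
  rw [pow_succ]
  have : (1 / 2 : ℝ) ^ n ≤ (98 / 100 : ℝ) ^ n := pow_le_pow_left₀ (by norm_num) (by norm_num) n
  linarith

lemma tele {g : ℕ → ℝ} {d : ℝ} (h : ∀ n, |g (n + 1) - g n| ≤ d * (1 / 2) ^ (n + 1)) (n : ℕ) :
    |g n - g 0| ≤ d * (1 - (1 / 2) ^ n) := by
  induction n with
  | zero => simp
  | succ n ih =>
    have h1 := h n
    have h2 : |g (n + 1) - g 0| ≤ |g (n + 1) - g n| + |g n - g 0| := by
      have := abs_add_le (g (n + 1) - g n) (g n - g 0)
      simpa using this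
    refine h2.trans ((add_le_add h1 ih).trans (le_of_eq ?_))
    rw [pow_succ]
    ring

lemma seq_of {T : ℝ} {K : Set X} (hK : IsCompact K) (hKT : K ⊆ slab T) {S₀ : St}
    (hg : Good K S₀) (hr : ∀ x, S₀.r x = 1) (hf : ∀ i z, ff S₀ i z = 0) {U : ℝ}
    (hU : ∀ i z, |S₀.u i z| ≤ U)
    (hU' : ∀ i v z, (v = et ∨ ∃ j, v = ev j) → |D v (S₀.u i) z| ≤ U) {es d b : ℝ}
    (hes : 0 < es) (hes1 : es ≤ 1 / 1000000) (hes2 : 80 * es ≤ b) (hd : 0 < d) (hd1 : d ≤ 1)
    {D₀ : ℝ} (hD₀ : D₀ = 100 * d + ee S₀ + mm S₀) :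
    ∃ S : ℕ → St, S 0 = S₀ ∧ SeqRate T K S b (3000 * D₀ / es)
      (U + d + 80 * es + 150000 * D₀ / es) d := by
  obtain ⟨S, h0, hI, hR⟩ := iterate' hK hKT hg hr hes hes1 hd hD₀
  have hD : 0 < D₀ := by
    have e0 := ee_nonneg S₀
    have m0 := mm_nonneg S₀
    rw [hD₀]; positivity
  have hU0 : 0 ≤ U := (abs_nonneg _).trans (hU 0 0)
  have hq : 0 < 150000 * D₀ / es := by positivity
  have hd0 : ∀ n, d * (1 / 2 : ℝ) ^ (n + 1) ≤ bet n / 2 := fun n => by
    have h1 := half_le_bet n
    have h2 : 0 < (1 / 2 : ℝ) ^ (n + 1) := by positivity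
    nlinarith
  have he0 : ∀ n, 2 * es * (975 / 1000 : ℝ) ^ n ≤ bet n / 2 := fun n => by
    have h1 := pow_ineq5 n
    have h2 : 0 < (975 / 1000 : ℝ) ^ n := by positivity
    unfold bet
    nlinarith
  have hb := bet_pos
  have ud : ∀ n i z, |(S n).u i z - (S 0).u i z| ≤ d := by
    intro n i z
    refine (tele (g := fun n => (S n).u i z) (fun n => (hR n).u i z) n).trans ?_
    have : 0 < (1 / 2 : ℝ) ^ n := by positivity
    nlinarith
  have uxs : ∀ n i v z, (v = et ∨ ∃ j, v = ev j) →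
      |D v ((S (n + 1)).u i) z - D v ((S n).u i) z| ≤ d * (1 / 2) ^ (n + 1) := by
    intro n i v z hv
    rcases hv with rfl | ⟨j, rfl⟩
    · exact (hR n).ut i z
    · exact (hR n).ux i j z
  have uxd : ∀ n i v z, (v = et ∨ ∃ j, v = ev j) →
      |D v ((S n).u i) z - D v ((S 0).u i) z| ≤ d := by
    intro n i v z hv
    refine (tele (g := fun n => D v ((S n).u i) z) (fun n => uxs n i v z hv) n).trans ?_
    have : 0 < (1 / 2 : ℝ) ^ n := by positivity
    nlinarith
  have hr1 : ∀ n x, |(S n).r x - 1| ≤ 80 * es := by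
    intro n x
    refine ((hI n).r1 x).trans ?_
    have : 0 < (975 / 1000 : ℝ) ^ n := by positivity
    nlinarith
  have hgood : ∀ n, Good K (S n) := fun n => (hI n).good
  have hfm : ∀ n i, MemLp (ff (S n) i) 2 (volume : Measure X) := fun n i =>
    memLp_cc (((hgood n).R1s.mul ((hgood n).gps i)).continuous)
      (HasCompactSupport.intro hK fun z hz => by simp [ff, (hgood n).gp_zero hz])
  have hvm : ∀ n, MemLp (nv (fun i z => ff (S (n + 1)) i z - ff (S n) i z)) 2
      (volume : Measure X) := fun n =>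
    nv_memLp (fun i => (((hgood (n + 1)).R1s.mul ((hgood (n + 1)).gps i)).continuous).sub
      (((hgood n).R1s.mul ((hgood n).gps i)).continuous)) hK
      (fun z hz i => by simp [ff, (hgood n).gp_zero hz, (hgood (n + 1)).gp_zero hz])
  have hfd : ∀ n i, n2 (fun z => ff (S (n + 1)) i z - ff (S n) i z) ≤
      3000 * D₀ / es * bet n := fun n i =>
    (n2_mono (hvm n) fun z =>
      abs_le_nv (fun i z => ff (S (n + 1)) i z - ff (S n) i z) i z).trans (hR n).f
  have hfc : ∀ n i, n2 (ff (S n) i) ≤ 150000 * D₀ / es * (1 - bet n) := by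
    intro n i
    induction n with
    | zero =>
      have h1 : ff (S 0) i = fun _ => 0 := by
        funext z
        rw [h0]
        exact hf i z
      rw [h1]
      unfold n2 bet
      simp
    | succ n ih =>
      have h1 : n2 (ff (S (n + 1)) i) ≤
          n2 (fun z => ff (S (n + 1)) i z - ff (S n) i z) + n2 (ff (S n) i) := by
        have h2 := n2_add_le (f := fun z => ff (S (n + 1)) i z - ff (S n) i z)
          (g := ff (S n) i) ((hfm (n + 1) i).sub (hfm n i)) (hfm n i)
        simpa using h2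
      have h3 := hfd n i
      have h4 : bet (n + 1) = bet n * (98 / 100) := by unfold bet; rw [pow_succ]
      have h5 : 150000 * D₀ / es = 50 * (3000 * D₀ / es) := by ring
      rw [h4]
      rw [h5] at ih ⊢
      nlinarith
  have hee : ∀ n i, n2 ((S n).e i) ≤ 3000 * D₀ / es * bet n := by
    intro n i
    have h1 : n2 ((S n).e i) ≤ ee (S n) :=
      n2_mono (nv_memLp (fun i => ((hgood n).es hK i).continuous) hK
      fun z hz i => (hgood n).e_zero hz i) fun z => abs_le_nv _ i z
    refine h1.trans ((hI n).ee.trans ?_)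
    have h2 := pow_ineq4 n
    have h3 : D₀ ≤ 3000 * D₀ / es := by
      rw [le_div_iff₀ hes]
      nlinarith
    have h4 : 0 < (955 / 1000 : ℝ) ^ n := by positivity
    unfold bet
    exact mul_le_mul h3 h2 h4.le (by positivity)
  refine ⟨S, h0, hgood, fun n i z => ?_, fun n i v z hv => ?_, fun n i z => ?_,
    fun n i v z hv => ?_, ud, uxd, fun n x => ?_, fun n x => ?_, fun n z hz => ?_, hfd,
    fun n i => ?_, hee, fun n x => (hr1 n x).trans hes2⟩
  · exact ((hR n).u i z).trans ((hd0 n).trans (by linarith [hb n]))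
  · exact (uxs n i v z hv).trans ((hd0 n).trans (by linarith [hb n]))
  · have h1 := ud n i z
    have h2 := hU i z
    have h3 : |(S n).u i z| ≤ |(S n).u i z - (S 0).u i z| + |(S 0).u i z| := by
      have := abs_add_le ((S n).u i z - (S 0).u i z) ((S 0).u i z)
      simpa using this
    rw [h0] at h3 h1
    linarith
  · have h1 := uxd n i v z hv
    have h2 := hU' i v z hv
    have h3 : |D v ((S n).u i) z| ≤ |D v ((S n).u i) z - D v ((S 0).u i) z| +
        |D v ((S 0).u i) z| := by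
      have := abs_add_le (D v ((S n).u i) z - D v ((S 0).u i) z) (D v ((S 0).u i) z)
      simpa using this
    rw [h0] at h3 h1
    linarith
  · exact ((hR n).r x).trans ((he0 n).trans (by linarith [hb n]))
  · have := hr1 n x
    linarith
  · refine ((hR n).R2 z hz).trans ?_
    linarith [hd0 n, he0 n]
  · refine (hfc n i).trans ?_
    have h1 := hb n
    nlinarith

/-- the initial state with velocity `a u` -/
def sc (u : Fin 3 → X → ℝ) (a : ℝ) : St where
  u i z := a * u i z
  r _ := 1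
  p _ := 0
  q _ := 0

lemma sc_good {K : Set X} {u : Fin 3 → X → ℝ} (hu : ∀ i, ContDiff ℝ ∞ (u i))
    (uK : ∀ i, tsupport (u i) ⊆ K) (div : ∀ z, ∑ i, D (ev i) (u i) z = 0) (a : ℝ) :
    Good K (sc u a) := by
  have h0 : tsupport (fun _ : X => (0:ℝ)) = ∅ := tsupport_eq_empty_iff.2 rfl
  refine ⟨fun i => contDiff_const.mul (hu i), contDiff_const, contDiff_const, contDiff_const,
    fun i => ?_, ?_, ?_, fun z => ?_, ⟨0, LipschitzWith.const _⟩, fun x => ?_, fun x => ?_⟩
  · refine subset_trans (closure_mono fun z hz => ?_) (uK i)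
    intro h1
    exact hz (by simp [sc, h1])
  · change tsupport (fun _ : X => (0:ℝ)) ⊆ _
    rw [h0]; exact empty_subset _
  · change tsupport (fun _ : X => (0:ℝ)) ⊆ _
    rw [h0]; exact empty_subset _
  · have h1 : ∀ i, D (ev i) ((sc u a).u i) z = a * D (ev i) (u i) z := fun i => by
      have := congrFun (D_const_mul (hu i) a (ev i)) z
      exact this
    simp only [h1]
    rw [← Finset.mul_sum, div, mul_zero]
  · change (1:ℝ) / 2 ≤ 1; norm_num
  · change (1:ℝ) ≤ 2; norm_num

lemma sc_ff (u : Fin 3 → X → ℝ) (a : ℝ) (i : Fin 3) (z : X) : ff (sc u a) i z = 0 := by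
  unfold ff St.gp
  have : (sc u a).p = fun _ => 0 := rfl
  rw [this, D_const]
  simp

/-- the size of the scaled states -/
lemma sc_small {K : Set X} (hK : IsCompact K) {u : Fin 3 → X → ℝ}
    (hu : ∀ i, ContDiff ℝ ∞ (u i)) (uK : ∀ i, tsupport (u i) ⊆ K) :
    ∃ B : ℝ, 0 ≤ B ∧ ∀ a : ℝ, 0 < a → a ≤ 1 →
      (∀ i z, |(sc u a).u i z| ≤ a * B) ∧
      (∀ i v z, (v = et ∨ ∃ j, v = ev j) → |D v ((sc u a).u i) z| ≤ a * B) ∧
      ee (sc u a) + mm (sc u a) ≤ a * B := by
  have hc : ∀ i, HasCompactSupport (u i) := fun i =>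
    HasCompactSupport.of_support_subset_isCompact hK (subset_closure.trans (uK i))
  -- bounds for u and its derivatives
  have hbd : ∀ {g : X → ℝ}, Continuous g → HasCompactSupport g → ∃ C : ℝ, 0 ≤ C ∧ ∀ z, |g z| ≤ C := by
    intro g hg hgc
    obtain ⟨C, hC⟩ := hgc.exists_bound_of_continuous hg
    exact ⟨|C|, abs_nonneg C, fun z => (hC z).trans (le_abs_self C)⟩
  have h1 : ∀ i, ∃ C : ℝ, 0 ≤ C ∧ ∀ z, |u i z| ≤ C := fun i => hbd (hu i).continuous (hc i)
  have h2 : ∀ i, ∃ C : ℝ, 0 ≤ C ∧ ∀ z, |D et (u i) z| ≤ C := fun i =>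
    hbd (D_smooth (hu i) et).continuous (D_hcs (hc i) et)
  have h3 : ∀ i j, ∃ C : ℝ, 0 ≤ C ∧ ∀ z, |D (ev j) (u i) z| ≤ C := fun i j =>
    hbd (D_smooth (hu i) (ev j)).continuous (D_hcs (hc i) (ev j))
  choose C1 p1 q1 using h1
  choose C2 p2 q2 using h2
  choose C3 p3 q3 using h3
  -- the functions
  set g : X → ℝ := fun z => ∑ i, (|D et (u i) z| + |∑ j, u j z * D (ev j) (u i) z| +
    |∑ j, D (ev j) (D (ev j) (u i)) z|) with hg
  have hgc : Continuous g := by
    refine continuous_finsetSum _ fun i _ => ((D_smooth (hu i) et).continuous.abs.add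
      (continuous_finsetSum _ fun j _ => (hu j).continuous.mul
        (D_smooth (hu i) (ev j)).continuous).abs).add
      (continuous_finsetSum _ fun j _ =>
        (D_smooth (D_smooth (hu i) (ev j)) (ev j)).continuous).abs
  have hgK : ∀ z, z ∉ K → g z = 0 := by
    intro z hz
    have e1 : ∀ i v, D v (u i) z = 0 := fun i v => D_eq_zero_of_notMem _ fun h' => hz (uK i h')
    have e2 : ∀ i v w, D v (D w (u i)) z = 0 := fun i v w =>
      D_eq_zero_of_notMem _ fun h' => hz (uK i (tsupport_D_subset _ _ h'))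
    simp [hg, e1, e2]
  have hgm : MemLp g 2 (volume : Measure X) := memLp_cc hgc (HasCompactSupport.intro hK hgK)
  have hg0 : ∀ z, 0 ≤ g z := fun z => Finset.sum_nonneg fun i _ => by positivity
  refine ⟨∑ i, C1 i + ∑ i, C2 i + ∑ i, ∑ j, C3 i j + 4 * n2 g, ?_, fun a ha ha1 => ⟨?_, ?_, ?_⟩⟩
  · have := n2_nonneg g
    have s1 : 0 ≤ ∑ i, C1 i := Finset.sum_nonneg fun i _ => p1 i
    have s2 : 0 ≤ ∑ i, C2 i := Finset.sum_nonneg fun i _ => p2 i
    have s3 : 0 ≤ ∑ i, ∑ j, C3 i j := Finset.sum_nonneg fun i _ => Finset.sum_nonneg fun j _ => p3 i j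
    positivity
  all_goals
    have := n2_nonneg g
    have s1 : 0 ≤ ∑ i, C1 i := Finset.sum_nonneg fun i _ => p1 i
    have s2 : 0 ≤ ∑ i, C2 i := Finset.sum_nonneg fun i _ => p2 i
    have s3 : 0 ≤ ∑ i, ∑ j, C3 i j := Finset.sum_nonneg fun i _ => Finset.sum_nonneg fun j _ => p3 i j
  · intro i z
    change |a * u i z| ≤ _
    rw [abs_mul, abs_of_pos ha]
    refine mul_le_mul_of_nonneg_left ?_ ha.le
    have h4 : C1 i ≤ ∑ i, C1 i := Finset.single_le_sum (fun i _ => p1 i) (Finset.mem_univ i)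
    linarith [q1 i z]
  · intro i v z hv
    have e1 : D v ((sc u a).u i) z = a * D v (u i) z := congrFun (D_const_mul (hu i) a v) z
    rw [e1, abs_mul, abs_of_pos ha]
    refine mul_le_mul_of_nonneg_left ?_ ha.le
    rcases hv with rfl | ⟨j, rfl⟩
    · have h4 : C2 i ≤ ∑ i, C2 i := Finset.single_le_sum (fun i _ => p2 i) (Finset.mem_univ i)
      linarith [q2 i z]
    · have h4 : C3 i j ≤ ∑ i, ∑ j, C3 i j :=
        (Finset.single_le_sum (fun j _ => p3 i j) (Finset.mem_univ j)).trans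
          (Finset.single_le_sum (f := fun i => ∑ j, C3 i j)
            (fun i _ => Finset.sum_nonneg fun j _ => p3 i j) (Finset.mem_univ i))
      linarith [q3 i j z]
  · -- sizes
    have eD : ∀ i v, D v ((sc u a).u i) = fun z => a * D v (u i) z := fun i v =>
      D_const_mul (hu i) a v
    have eDD : ∀ i v w z, D w (D v ((sc u a).u i)) z = a * D w (D v (u i)) z := by
      intro i v w z
      rw [eD]
      exact congrFun (D_const_mul (D_smooth (hu i) v) a w) z
    have hq0 : ∀ v z, D v (sc u a).q z = 0 := fun v z => by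
      have : (sc u a).q = fun _ => 0 := rfl
      rw [this, D_const]
    have hp0 : ∀ v z, D v (sc u a).p z = 0 := fun v z => by
      have : (sc u a).p = fun _ => 0 := rfl
      rw [this, D_const]
    have hbe : ∀ i z, (sc u a).b i z = - (a * ∑ j, D (ev j) (D (ev j) (u i)) z) := by
      intro i z
      unfold St.b
      rw [hq0]
      simp only [eDD]
      rw [← Finset.mul_sum, add_zero]
    have hac : ∀ i z, (sc u a).acc i z = a * D et (u i) z +
        a ^ 2 * ∑ j, u j z * D (ev j) (u i) z := by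
      intro i z
      unfold St.acc
      rw [eD]
      congr 1
      rw [Finset.mul_sum]
      refine Finset.sum_congr rfl fun j _ => ?_
      rw [eD]
      change a * u j z * (a * D (ev j) (u i) z) = _
      ring
    have hgi : ∀ i z, |D et (u i) z| + |∑ j, u j z * D (ev j) (u i) z| +
        |∑ j, D (ev j) (D (ev j) (u i)) z| ≤ g z := fun i z =>
      Finset.single_le_sum (f := fun i => |D et (u i) z| + |∑ j, u j z * D (ev j) (u i) z| +
        |∑ j, D (ev j) (D (ev j) (u i)) z|) (fun i _ => by positivity) (Finset.mem_univ i)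
    have hb1 : ∀ i z, |(sc u a).b i z| ≤ a * g z := by
      intro i z
      rw [hbe, abs_neg, abs_mul, abs_of_pos ha]
      refine mul_le_mul_of_nonneg_left ?_ ha.le
      have h4 := hgi i z
      have h5 := abs_nonneg (D et (u i) z)
      have h6 := abs_nonneg (∑ j, u j z * D (ev j) (u i) z)
      linarith
    have he1 : ∀ i z, |(sc u a).e i z| ≤ a * g z := by
      intro i z
      have hR2 : (sc u a).R2 z = 1 := rfl
      have hgp : (sc u a).gp i z = 0 := hp0 _ z
      unfold St.e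
      rw [hR2, hgp, mul_zero, sub_zero, one_mul, hac, hbe]
      have h4 := hgi i z
      set x1 := D et (u i) z
      set x2 := ∑ j, u j z * D (ev j) (u i) z
      set x3 := ∑ j, D (ev j) (D (ev j) (u i)) z
      have h5 : |a * x1 + a ^ 2 * x2 + -(a * x3)| ≤ a * |x1| + a ^ 2 * |x2| + a * |x3| := by
        refine (abs_add_le _ _).trans (add_le_add ((abs_add_le _ _).trans (add_le_add ?_ ?_)) ?_)
        · rw [abs_mul, abs_of_pos ha]
        · rw [abs_mul, abs_of_nonneg (by positivity)]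
        · rw [abs_neg, abs_mul, abs_of_pos ha]
      refine h5.trans ?_
      have h6 : a ^ 2 * |x2| ≤ a * |x2| := by
        refine mul_le_mul_of_nonneg_right ?_ (abs_nonneg _)
        nlinarith
      nlinarith
    have hnv : ∀ {w : Fin 3 → X → ℝ}, (∀ i z, |w i z| ≤ a * g z) → n2 (nv w) ≤ 2 * a * n2 g := by
      intro w hw
      have h4 : ∀ z, |nv w z| ≤ 2 * a * g z := by
        intro z
        rw [abs_of_nonneg (nv_nonneg _ _)]
        refine (norm_vec_le (c := a * g z) fun i => hw i z).trans (le_of_eq (by ring))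
      refine (n2_mono (hgm.const_mul (2 * a)) h4).trans (le_of_eq ?_)
      rw [n2_const_mul, abs_of_pos (by positivity)]
    have m1 : ee (sc u a) ≤ 2 * a * n2 g := hnv he1
    have m2 : n2 (nv (sc u a).b) ≤ 2 * a * n2 g := hnv hb1
    have m3 : n2 (nv (sc u a).gp) = 0 := by
      have : nv (sc u a).gp = fun _ => 0 := by
        funext z
        exact nv_zero fun i => hp0 _ z
      rw [this]
      unfold n2
      simp
    unfold mm
    rw [m3]
    nlinarith

end

end Pool.Agent.Y616.MH
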