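import Pool.Agent.Y616.MH.Limit

/-!
# Weak solutions from glued states
-/

set_option autoImplicit false

open scoped ContDiff ENNReal
open Set MeasureTheory Filter Topology Pool.Agent.H729R2 Pool.Agent.H729R2.MHD

namespace Pool.Agent.Y616.MH

noncomputable section

lemma force_int {K₀ : Set X} (hK : IsCompact K₀) {g a : X → ℝ}
    (gm : MemLp g 2 (volume : Measure X)) (ha : Continuous a) :
    IntegrableOn (fun z => a z * g z) K₀ := by
  obtain ⟨C, hC⟩ := bounded_on hK ha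
  have h1 : IntegrableOn g K₀ := by
    have : Integrable (fun z => K₀.indicator (fun _ => (1:ℝ)) z * g z) :=
      (memLp_ind hK).integrable_mul gm
    refine (integrable_indicator_iff hK.measurableSet).1 (this.congr
      (Eventually.of_forall fun z => ?_))
    by_cases hz : z ∈ K₀ <;> simp [hz]
  refine Integrable.bdd_mul (c := C) h1 ha.aestronglyMeasurable ?_
  exact (ae_restrict_iff' hK.measurableSet).2 (Eventually.of_forall fun z hz => hC z hz)

lemma force_form {Ω : Set E3} (hΩ : IsOpen Ω) {T : ℝ} {K₀ : Set X} (hK : IsCompact K₀)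
    (hKΩ : K₀ ⊆ Cyl Ω T) {a : X → ℝ} (ha : Continuous a) {φ : X → E3}
    (hφ : ∀ i, Continuous fun y => φ y i) {g : Fin 3 → X → ℝ}
    (gm : ∀ i, MemLp (g i) 2 (volume : Measure X)) (gz : ∀ i z, z ∉ K₀ → g i z = 0) :
    ∫ z in Cyl Ω T, a (z.1, z.2) * ∑ i, (vec fun i => g i (z.1, z.2)) i * φ z i
      = ∑ i, ∫ z in K₀, (a z * φ z i) * g i z := by
  have i5 : ∀ i, IntegrableOn (fun z => (a z * φ z i) * g i z) K₀ := fun i =>
    force_int hK (gm i) (ha.mul (hφ i))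
  rw [cyl_to_K hΩ hKΩ fun z hz => by simp [gz _ _ hz],
      ← integral_finsetSum _ fun i _ => i5 i]
  refine integral_congr_ae (Eventually.of_forall fun z => ?_)
  beta_reduce
  rw [Finset.mul_sum]
  refine Finset.sum_congr rfl fun i _ => ?_
  simp only [vec_apply]
  ring

variable {F : Fam} {K₀ : Set X} {b T : ℝ} (h : F.Ok K₀ b) {c d : ℕ → ℝ}
  {rL : E3 → ℝ} {fL : Fin 3 → X → ℝ}

include h in
lemma split (fz : ∀ i z, z ∉ F.W univ → fL i z = 0) (A : Set ℕ) (i : Fin 3) (z : X) :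
    fL i z = (F.W A).indicator (fL i) z + (F.W Aᶜ).indicator (fL i) z := by
  by_cases hz : z ∈ F.W univ
  · obtain ⟨k, -, hk⟩ := mem_iUnion₂.1 hz
    by_cases hkA : k ∈ A
    · have h1 : z ∈ F.W A := mem_iUnion₂.2 ⟨k, hkA, hk⟩
      have h2 : z ∉ F.W Aᶜ := by
        intro hc
        obtain ⟨j, hj, hjz⟩ := mem_iUnion₂.1 hc
        have := h.eq_of_mem ⟨z, hjz, rfl⟩ ⟨z, hk, rfl⟩
        rw [this] at hj
        exact hj hkA
      rw [Set.indicator_of_mem h1, Set.indicator_of_notMem h2, add_zero]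
    · have h1 : z ∈ F.W Aᶜ := mem_iUnion₂.2 ⟨k, hkA, hk⟩
      have h2 : z ∉ F.W A := by
        intro hc
        obtain ⟨j, hj, hjz⟩ := mem_iUnion₂.1 hc
        have := h.eq_of_mem ⟨z, hjz, rfl⟩ ⟨z, hk, rfl⟩
        rw [this] at hj
        exact hkA hj
      rw [Set.indicator_of_mem h1, Set.indicator_of_notMem h2, zero_add]
  · have h1 : z ∉ F.W A := fun hc => hz (by
      obtain ⟨j, hj, hjz⟩ := mem_iUnion₂.1 hc
      exact mem_iUnion₂.2 ⟨j, mem_univ j, hjz⟩)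
    have h2 : z ∉ F.W Aᶜ := fun hc => hz (by
      obtain ⟨j, hj, hjz⟩ := mem_iUnion₂.1 hc
      exact mem_iUnion₂.2 ⟨j, mem_univ j, hjz⟩)
    rw [Set.indicator_of_notMem h1, Set.indicator_of_notMem h2, fz i z hz, add_zero]

lemma W_univ_ind (fz : ∀ i z, z ∉ F.W univ → fL i z = 0) (i : Fin 3) :
    (F.W univ).indicator (fL i) = fL i := by
  funext z
  by_cases hz : z ∈ F.W univ
  · rw [Set.indicator_of_mem hz]
  · rw [Set.indicator_of_notMem hz, fz i z hz]

/-- the momentum equation of the glued solutions -/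
theorem momentumA {Ω : Set E3} (hΩ : IsOpen Ω) (h : F.Ok K₀ b) (hKΩ : K₀ ⊆ Cyl Ω T)
    (fm : ∀ i, MemLp (fL i) 2 (volume : Measure X)) (fz : ∀ i z, z ∉ F.W univ → fL i z = 0)
    {A : Set ℕ} {uL tL : Fin 3 → X → ℝ} {xL : Fin 3 → Fin 3 → X → ℝ} {RL : X → ℝ}
    (hL : LimA F K₀ T b c d rL fL A uL tL xL RL)
    {uM tM : Fin 3 → X → ℝ} {xM : Fin 3 → Fin 3 → X → ℝ} {RM : X → ℝ}
    (hM : LimA F K₀ T b c d rL fL Aᶜ uM tM xM RM) (ρ₀ : E3 → ℝ) :
    Momentum Ω T (fun _ => 1) ρ₀ 0 (fun t x => vec fun i => fL i (t, x))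
      (fun t x => 1 / RL (t, x)) (fun t x => vec fun i => uL i (t, x))
      (fun t x i j => xL i j (t, x)) 0 (fun _ _ _ _ => 0) := by
  have hK := h.K₀c
  have hb := h.b1
  intro φ hφ hdiv
  have hs := test_smooth hφ
  have hc := test_hcs hφ
  have hφc : ∀ i, Continuous fun y => φ y i := fun i => (hs i).continuous
  have hdiv' : ∀ z ∈ K₀, ∑ i, D (ev i) (fun y => φ y i) z = 0 := fun z hz =>
    hdiv z ⟨⟨(hKΩ hz).1.1.le, (hKΩ hz).1.2⟩, (hKΩ hz).2⟩
  have h1 := hL.lims.momentum2 hK hΩ hKΩ hb ρ₀ φ hφ hdiv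
  have h2 := hM.lims.first_lim hK (φ := fun i y => φ y i) hs hc hdiv'
  have hW : ∀ B : Set ℕ, ∀ i, MemLp ((F.W B).indicator (fL i)) 2 (volume : Measure X) :=
    fun B i => (fm i).indicator (h.W_meas B)
  have hWz : ∀ B : Set ℕ, ∀ i z, z ∉ K₀ → (F.W B).indicator (fL i) z = 0 := by
    intro B i z hz
    refine Set.indicator_of_notMem (fun hc => hz ?_) _
    obtain ⟨k, -, hk⟩ := mem_iUnion₂.1 hc
    exact h.sub k hk
  have hfz : ∀ i z, z ∉ K₀ → fL i z = 0 := by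
    intro i z hz
    refine fz i z fun hc => hz ?_
    obtain ⟨k, -, hk⟩ := mem_iUnion₂.1 hc
    exact h.sub k hk
  have hP := hL.lims.P2c hb
  have f1 := force_form hΩ hK hKΩ hP hφc (fun i => hW A i) (fun i => hWz A i)
  have f2 := force_form hΩ hK hKΩ hP hφc fm hfz
  have f3 : ∑ i, ∫ z in K₀, (1 / RL z * φ z i) * fL i z =
      (∑ i, ∫ z in K₀, (1 / RL z * φ z i) * (F.W A).indicator (fL i) z) +
      ∑ i, ∫ z in K₀, (1 / rL z.2 * φ z i) * (F.W Aᶜ).indicator (fL i) z := by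
    rw [← Finset.sum_add_distrib]
    refine Finset.sum_congr rfl fun i _ => ?_
    have e1 : ∫ z in K₀, (1 / rL z.2 * φ z i) * (F.W Aᶜ).indicator (fL i) z =
        ∫ z in K₀, (1 / RL z * φ z i) * (F.W Aᶜ).indicator (fL i) z := by
      refine setIntegral_congr_fun hK.measurableSet fun z hz => ?_
      beta_reduce
      by_cases hzW : z ∈ F.W Aᶜ
      · have hR : RL z = rL z.2 := by
          refine hL.R z ⟨(hKΩ hz).1.1.le, (hKΩ hz).1.2.le⟩ fun k hk hc => ?_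
          obtain ⟨j, hj, hjz⟩ := mem_iUnion₂.1 hzW
          have := h.eq_of_mem ⟨z, hjz, rfl⟩ hc
          rw [this] at hj
          exact hj hk
        rw [hR]
      · rw [Set.indicator_of_notMem hzW, mul_zero, mul_zero]
    have j1 : ∀ B : Set ℕ, IntegrableOn (fun z => (1 / RL z * φ z i) *
        (F.W B).indicator (fL i) z) K₀ := fun B => force_int hK (hW B i) (hP.mul (hφc i))
    rw [e1, ← integral_add (j1 A) (j1 Aᶜ)]
    refine integral_congr_ae (Eventually.of_forall fun z => ?_)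
    beta_reduce
    rw [split h fz A i z]
    ring
  have f4 : ∫ z in Cyl Ω T, 1 / RL (z.1, z.2) * ∑ i, (vec fun i => fL i (z.1, z.2)) i * φ z i =
      ∫ z in Cyl Ω T, 1 / RL (z.1, z.2) *
        ∑ i, (vec fun i => (F.W A).indicator (fL i) (z.1, z.2)) i * φ z i := by
    have g1 := f1
    have g2 := f2
    beta_reduce at g1 g2
    rw [g1, g2, f3, h2, add_zero]
  rw [f4]
  exact h1

/-- the glued solutions are weak solutions -/
theorem weakSolA {Ω : Set E3} (hΩ : IsOpen Ω) (hbd : Bornology.IsBounded Ω) (hT : 0 < T)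
    (h : F.Ok K₀ b) (hKΩ : K₀ ⊆ Cyl Ω T) (σ : ℝ → ℝ)
    (fm : ∀ i, MemLp (fL i) 2 (volume : Measure X)) (fz : ∀ i z, z ∉ F.W univ → fL i z = 0)
    {A : Set ℕ} {uL tL : Fin 3 → X → ℝ} {xL : Fin 3 → Fin 3 → X → ℝ} {RL : X → ℝ}
    (hL : LimA F K₀ T b c d rL fL A uL tL xL RL)
    {uM tM : Fin 3 → X → ℝ} {xM : Fin 3 → Fin 3 → X → ℝ} {RM : X → ℝ}
    (hM : LimA F K₀ T b c d rL fL Aᶜ uM tM xM RM) :
    WeakSol Ω T (fun _ => 1) σ (fun x => 1 / rL x) 0 0 (fun t x => vec fun i => fL i (t, x))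
      (fun t x => 1 / RL (t, x)) (fun t x => vec fun i => uL i (t, x)) 0 := by
  have hK := h.K₀c
  have hb := h.b1
  have hl := hL.lims
  have hR0 := fun z => hl.Rpos hb z
  have hRb : ∀ z, 1 / 2 ≤ 1 / RL z ∧ 1 / RL z ≤ 2 := by
    intro z
    have h1 := abs_le.1 (hl.Rb z)
    constructor
    · rw [le_div_iff₀ (hR0 z)]; linarith [h1.2]
    · rw [div_le_iff₀ (hR0 z)]; linarith [h1.1]
  refine ⟨dens_of_cont hΩ hbd (hl.P2c hb) (C := 2)
      fun t x => ⟨by linarith [(hRb (t, x)).1], (hRb _).2⟩,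
    hl.inCw hK hΩ hbd hKΩ, zero_inCw Ω T, ?_, hl.transport2 hK hΩ,
    fun t x i j => xL i j (t, x), fun _ _ _ _ => 0, hl.inL2V hK hΩ hbd hKΩ, zero_inL2W Ω T,
    momentumA hΩ h hKΩ fm fz hL hM _, zero_induction Ω T σ _ _⟩
  refine Eventually.of_forall fun x => ?_
  have h1 : RL (0, x) = rL x := by
    refine tendsto_nhds_unique (hl.Rl (0, x) ⟨le_rfl, hT.le⟩) ?_
    have : ∀ n, (F.G A n).R2 (0, x) = (F.G A n).r x := by
      intro n
      unfold St.R2
      congr 1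
      ext i
      exact ((hl.good n).lab_isLabel hK).init x i
    simp only [this]
    exact hl.rl x
  change 1 / RL (0, x) = 1 / rL x
  rw [h1]

/-- the fluid at rest -/
theorem weakSol_rest {Ω : Set E3} (hΩ : IsOpen Ω) (hbd : Bornology.IsBounded Ω)
    (h : F.Ok K₀ b) (hKΩ : K₀ ⊆ Cyl Ω T) (σ : ℝ → ℝ)
    (fz : ∀ i z, z ∉ F.W univ → fL i z = 0)
    {uL tL : Fin 3 → X → ℝ} {xL : Fin 3 → Fin 3 → X → ℝ} {RL : X → ℝ}
    (hL : LimA F K₀ T b c d rL fL univ uL tL xL RL) :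
    WeakSol Ω T (fun _ => 1) σ (fun x => 1 / rL x) 0 0 (fun t x => vec fun i => fL i (t, x))
      (fun _ x => 1 / rL x) 0 0 := by
  have hK := h.K₀c
  have hb := h.b1
  have hl := hL.lims
  have hr0 := fun x => hl.rpos hb x
  have hrb : ∀ x, 1 / 2 ≤ 1 / rL x ∧ 1 / rL x ≤ 2 := by
    intro x
    have h1 := abs_le.1 (hl.rb x)
    constructor
    · rw [le_div_iff₀ (hr0 x)]; linarith [h1.2]
    · rw [div_le_iff₀ (hr0 x)]; linarith [h1.1]
  have hm := hl.momentum1 hK hΩ hKΩ hb (fun x => 1 / rL x)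
  have e : (fun (t : ℝ) (x : E3) => vec fun i => (F.W univ).indicator (fL i) (t, x)) =
      fun t x => vec fun i => fL i (t, x) := by
    funext t x
    congr 1
    funext i
    rw [W_univ_ind fz i]
  rw [e] at hm
  refine ⟨?_, zero_inCw Ω T, zero_inCw Ω T, Eventually.of_forall fun x => rfl,
      hl.transport1 hK hΩ, fun _ _ _ _ => 0, fun _ _ _ _ => 0, zero_inL2V Ω T, zero_inL2W Ω T,
      hm, zero_induction Ω T σ _ _⟩
  exact dens_of_cont hΩ hbd ((hl.P1c hb).comp continuous_snd) (C := 2)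
      fun t x => ⟨by linarith [(hrb x).1], (hrb x).2⟩

end

end Pool.Agent.Y616.MH
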